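import Pool.Agent.Helper509.FR.Basic

namespace Pool.Agent.Helper509.FR

open Filter Topology

variable {H : Type*} [NormedAddCommGroup H] [InnerProductSpace ℂ H]

/-- the filtration: at stage `k + 1` add the `k`-th dense vector and the images of the previous
stage under the first `k + 1` of the operators `g i` and `v i` -/
def filt (g v : ℕ → (H →L[ℂ] H)) (e : ℕ → H) : ℕ → Submodule ℂ H
  | 0 => ⊥
  | (k + 1) => filt g v e k ⊔ (Submodule.span ℂ {e k} ⊔
      ((⨆ i : Fin (k + 1), (filt g v e k).map (g i : H →ₗ[ℂ] H)) ⊔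
        (⨆ i : Fin (k + 1), (filt g v e k).map (v i : H →ₗ[ℂ] H))))

theorem filt_fin (g v : ℕ → (H →L[ℂ] H)) (e : ℕ → H) (k : ℕ) :
    FiniteDimensional ℂ (filt g v e k) := by
  induction k with
  | zero => exact finiteDimensional_bot ℂ H
  | succ k ih =>
    have h1 : FiniteDimensional ℂ
        ((⨆ i : Fin (k + 1), (filt g v e k).map (g i : H →ₗ[ℂ] H) : Submodule ℂ H)) :=
      Submodule.finiteDimensional_iSup _
    have h2 : FiniteDimensional ℂ
        ((⨆ i : Fin (k + 1), (filt g v e k).map (v i : H →ₗ[ℂ] H) : Submodule ℂ H)) :=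
      Submodule.finiteDimensional_iSup _
    have h3 : FiniteDimensional ℂ (Submodule.span ℂ {e k}) :=
      FiniteDimensional.span_of_finite ℂ (Set.finite_singleton _)
    exact Submodule.finiteDimensional_sup _ _

theorem filt_mono (g v : ℕ → (H →L[ℂ] H)) (e : ℕ → H) : Monotone (filt g v e) :=
  monotone_nat_of_le_succ fun _ => le_sup_left

theorem filt_e (g v : ℕ → (H →L[ℂ] H)) (e : ℕ → H) (k : ℕ) : e k ∈ filt g v e (k + 1) := by
  have h : e k ∈ Submodule.span ℂ {e k} := Submodule.mem_span_singleton_self _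
  exact (le_sup_left.trans le_sup_right : Submodule.span ℂ {e k} ≤ filt g v e (k + 1)) h

theorem filt_g (g v : ℕ → (H →L[ℂ] H)) (e : ℕ → H) (i k : ℕ) (h : i ≤ k) (x : H)
    (hx : x ∈ filt g v e k) : g i x ∈ filt g v e (k + 1) := by
  have h1 : g i x ∈ (filt g v e k).map (g i : H →ₗ[ℂ] H) := Submodule.mem_map_of_mem hx
  have h2 : (filt g v e k).map (g i : H →ₗ[ℂ] H) ≤
      ⨆ i : Fin (k + 1), (filt g v e k).map (g i : H →ₗ[ℂ] H) :=
    le_iSup (fun i : Fin (k + 1) => (filt g v e k).map (g i : H →ₗ[ℂ] H))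
      ⟨i, Nat.lt_succ_of_le h⟩
  exact ((h2.trans le_sup_left).trans (le_sup_right.trans le_sup_right) :
    (filt g v e k).map (g i : H →ₗ[ℂ] H) ≤ filt g v e (k + 1)) h1

theorem filt_v (g v : ℕ → (H →L[ℂ] H)) (e : ℕ → H) (i k : ℕ) (h : i ≤ k) (x : H)
    (hx : x ∈ filt g v e k) : v i x ∈ filt g v e (k + 1) := by
  have h1 : v i x ∈ (filt g v e k).map (v i : H →ₗ[ℂ] H) := Submodule.mem_map_of_mem hx
  have h2 : (filt g v e k).map (v i : H →ₗ[ℂ] H) ≤
      ⨆ i : Fin (k + 1), (filt g v e k).map (v i : H →ₗ[ℂ] H) :=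
    le_iSup (fun i : Fin (k + 1) => (filt g v e k).map (v i : H →ₗ[ℂ] H))
      ⟨i, Nat.lt_succ_of_le h⟩
  exact ((h2.trans le_sup_right).trans (le_sup_right.trans le_sup_right) :
    (filt g v e k).map (v i : H →ₗ[ℂ] H) ≤ filt g v e (k + 1)) h1

theorem exists_frame {H : Type*} [NormedAddCommGroup H] [InnerProductSpace ℂ H] [CompleteSpace H]
    [TopologicalSpace.SeparableSpace H] (g v : ℕ → (H →L[ℂ] H))
    (g_sa : ∀ i (x y : H), inner ℂ (g i x) y = inner ℂ x (g i y))
    (v_iso : ∀ i j (x y : H), inner ℂ (v i x) (v j y) = if i = j then inner ℂ x y else (0 : ℂ))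
    (v_comm : ∀ i j, v i * g j = g j * v i) : ∃ F : Frame H, F.g = g ∧ F.v = v := by
  obtain ⟨e, he⟩ := TopologicalSpace.exists_dense_seq H
  have hfin := filt_fin g v e
  have hmono := filt_mono g v e
  have hproj : ∀ k, (filt g v e k).HasOrthogonalProjection := fun k => inferInstance
  have key : ∀ (k : ℕ) (T : H →L[ℂ] H), (∀ x ∈ filt g v e k, T x ∈ filt g v e (k + 1)) →
      (filt g v e (k + 1)).starProjection * (T * (filt g v e k).starProjection) =
        T * (filt g v e k).starProjection := by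
    intro k T hT
    ext x
    exact Submodule.starProjection_eq_self_iff.2
      (hT _ (Submodule.starProjection_apply_mem (filt g v e k) x))
  refine ⟨⟨fun k => (filt g v e k).starProjection, g, v, ?_, ?_, ?_, ?_, g_sa, ?_, v_iso, ?_,
    v_comm⟩, rfl, rfl⟩
  · exact fun n x y => Submodule.inner_starProjection_left_eq_right _ x y
  · intro m n
    rcases le_total m n with h | h
    · rw [min_eq_left h]
      exact Submodule.starProjection_comp_starProjection_of_le (hmono h)
    · rw [min_eq_right h]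
      ext x
      exact Submodule.starProjection_eq_self_iff.2
        (hmono h (Submodule.starProjection_apply_mem (filt g v e n) x))
  · intro n
    have : LinearMap.range ((filt g v e n).starProjection : H →ₗ[ℂ] H) = filt g v e n :=
      Submodule.range_starProjection _
    rw [this]
    exact hfin n
  · intro x
    refine Submodule.starProjection_tendsto_self (filt g v e) hmono x ?_
    intro y _
    have h1 : Set.range e ⊆ ((⨆ t, filt g v e t : Submodule ℂ H) : Set H) := by
      rintro _ ⟨k, rfl⟩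
      exact (le_iSup (filt g v e) (k + 1)) (filt_e g v e k)
    have h2 : y ∈ closure (Set.range e) := he y
    exact closure_mono h1 h2
  · exact fun i k hik => key k (g i) fun x hx => filt_g g v e i k hik x hx
  · exact fun i k hik => key k (v i) fun x hx => filt_v g v e i k hik x hx

end Pool.Agent.Helper509.FR
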