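import Pool.Agent.Helper509.FR.Basic

namespace Pool.Agent.Helper509.FR

open Filter Topology

variable {H : Type*} [NormedAddCommGroup H] [InnerProductSpace ℂ H]

/-- Pythagoras for a finite family of pairwise orthogonal vectors of norm at most one. -/
theorem fr_pyth {ι : Type*} (s : Finset ι) (u : ι → H) (c : ι → ℂ)
    (hu : ∀ i ∈ s, ∀ j ∈ s, i ≠ j → inner ℂ (u i) (u j) = (0 : ℂ)) (hn : ∀ i, ‖u i‖ ≤ 1) :
    ‖∑ i ∈ s, c i • u i‖ ^ 2 ≤ ∑ i ∈ s, ‖c i‖ ^ 2 := by
  classical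
  induction s using Finset.induction_on with
  | empty => simp
  | insert a s ha ih =>
    rw [Finset.sum_insert ha, Finset.sum_insert ha]
    have h0 : inner ℂ (c a • u a) (∑ i ∈ s, c i • u i) = (0 : ℂ) := by
      rw [inner_sum]
      refine Finset.sum_eq_zero fun i hi => ?_
      rw [inner_smul_left, inner_smul_right,
        hu a (Finset.mem_insert_self a s) i (Finset.mem_insert_of_mem hi)
          (fun h => ha (h ▸ hi))]
      simp
    have h1 := norm_add_sq_eq_norm_sq_add_norm_sq_of_inner_eq_zero (𝕜 := ℂ) _ _ h0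
    have h2 : ‖c a • u a + ∑ i ∈ s, c i • u i‖ ^ 2
        = ‖c a • u a‖ ^ 2 + ‖∑ i ∈ s, c i • u i‖ ^ 2 := by
      simpa [sq] using h1
    rw [h2]
    have h3 : ‖c a • u a‖ ^ 2 ≤ ‖c a‖ ^ 2 := by
      rw [norm_smul]
      have : ‖c a‖ * ‖u a‖ ≤ ‖c a‖ := mul_le_of_le_one_right (norm_nonneg _) (hn a)
      exact pow_le_pow_left₀ (by positivity) this 2
    have h4 := ih (fun i hi j hj => hu i (Finset.mem_insert_of_mem hi) j
      (Finset.mem_insert_of_mem hj))
    linarith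

/-- The Riesz vector of the functional `w ↦ Ψ (rank one operator)`. -/
theorem fr_riesz [CompleteSpace H] (Ψ : (H →L[ℂ] H) →L[ℂ] ℂ) :
    ∃ Z : H →ₗ[ℂ] H, ∀ e w : H, inner ℂ (Z e) w = Ψ (InnerProductSpace.rankOne ℂ w e) := by
  classical
  let L : H → (H →L[ℂ] ℂ) := fun e =>
    Ψ.comp ((InnerProductSpace.rankOne ℂ (E := H) (F := H)).flip e)
  have hL : ∀ e w, L e w = Ψ (InnerProductSpace.rankOne ℂ w e) := fun e w => rfl
  let Z0 : H → H := fun e => (InnerProductSpace.toDual ℂ H).symm (L e)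
  have hZ0 : ∀ e w, inner ℂ (Z0 e) w = Ψ (InnerProductSpace.rankOne ℂ w e) := by
    intro e w
    simp only [Z0]
    rw [InnerProductSpace.toDual_symm_apply, hL]
  refine ⟨{ toFun := Z0, map_add' := ?_, map_smul' := ?_ }, hZ0⟩
  · intro a b
    refine ext_inner_right ℂ fun w => ?_
    rw [inner_add_left, hZ0, hZ0, hZ0, map_add, map_add]
  · intro a b
    refine ext_inner_right ℂ fun w => ?_
    rw [RingHom.id_apply, inner_smul_left, hZ0, hZ0]
    rw [map_smulₛₗ]
    simp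

theorem functional_repr [CompleteSpace H] (q : H →L[ℂ] H)
    (hsa : ∀ (x y : H), inner ℂ (q x) y = inner ℂ x (q y)) (hq : q * q = q)
    (hfin : FiniteDimensional ℂ (LinearMap.range (q : H →ₗ[ℂ] H)))
    (Ψ : (H →L[ℂ] H) →L[ℂ] ℂ) (hΨ : ‖Ψ‖ ≤ 1) :
    ∃ (ξ η : Fin (Module.finrank ℂ (LinearMap.range (q : H →ₗ[ℂ] H))) → H),
      (∀ i, q (ξ i) = ξ i) ∧ ∑ i, ‖ξ i‖ ^ 2 ≤ 1 ∧ ∑ i, ‖η i‖ ^ 2 ≤ 1 ∧
      ∀ x : H →L[ℂ] H, Ψ (x * q) = ∑ i, inner ℂ (η i) (x (ξ i)) := by
  classical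
  obtain ⟨Z, hZ⟩ := fr_riesz Ψ
  set F : Submodule ℂ H := LinearMap.range (q : H →ₗ[ℂ] H) with hF
  have hqF : ∀ x ∈ F, q x = x := by
    rintro x ⟨y, rfl⟩
    have := congrArg (fun T : H →L[ℂ] H => T y) hq
    simpa using this
  -- the operator `S` on `F`
  let ZF : F →L[ℂ] H := LinearMap.toContinuousLinearMap (Z.comp F.subtype)
  have hZF : ∀ e : F, ZF e = Z e := fun e => rfl
  let S : F →L[ℂ] F := (ContinuousLinearMap.adjoint ZF).comp ZF
  have hS : ∀ a b : F, inner ℂ (S a) b = inner ℂ (Z a) (Z b) := by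
    intro a b
    simp only [S, ContinuousLinearMap.comp_apply]
    rw [ContinuousLinearMap.adjoint_inner_left, hZF, hZF]
  have hS' : ∀ a b : F, inner ℂ a (S b) = inner ℂ (Z a) (Z b) := by
    intro a b
    simp only [S, ContinuousLinearMap.comp_apply]
    rw [ContinuousLinearMap.adjoint_inner_right, hZF, hZF]
  have hsym : (S : F →ₗ[ℂ] F).IsSymmetric := by
    intro a b
    change inner ℂ (S a) b = inner ℂ a (S b)
    rw [hS, hS']
  let fb : OrthonormalBasis (Fin (Module.finrank ℂ F)) ℂ F := hsym.eigenvectorBasis rfl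
  have hfb : ∀ i, S (fb i) = (hsym.eigenvalues rfl i : ℂ) • fb i := by
    intro i
    exact hsym.apply_eigenvectorBasis rfl i
  let f : Fin (Module.finrank ℂ F) → H := fun i => (fb i : H)
  have hfo : Orthonormal ℂ f := by
    have := fb.orthonormal
    exact this.comp_linearIsometry F.subtypeₗᵢ
  have hfF : ∀ i, f i ∈ F := fun i => (fb i).2
  have hqf : ∀ i, q (f i) = f i := fun i => hqF _ (hfF i)
  have horth : ∀ i j, i ≠ j → inner ℂ (Z (f i)) (Z (f j)) = (0 : ℂ) := by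
    intro i j hij
    have h1 := hS (fb i) (fb j)
    rw [hfb, inner_smul_left, fb.orthonormal.2 hij, mul_zero] at h1
    exact h1.symm
  -- expansion of `q`
  have hqexp : ∀ y, q y = ∑ i, inner ℂ (f i) y • f i := by
    intro y
    have hy : q y ∈ F := ⟨y, rfl⟩
    have h1 := fb.sum_repr' ⟨q y, hy⟩
    have h2 := congrArg (fun z : F => (z : H)) h1
    simp only [Submodule.coe_sum, Submodule.coe_smul] at h2
    rw [← h2]
    refine Finset.sum_congr rfl fun i _ => ?_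
    congr 1
    have h3 : inner ℂ (fb i) (⟨q y, hy⟩ : F) = inner ℂ (f i) (q y) := rfl
    rw [h3, ← hsa, hqf]
  have hxq : ∀ x : H →L[ℂ] H, x * q = ∑ i, InnerProductSpace.rankOne ℂ (x (f i)) (f i) := by
    intro x
    ext y
    rw [mul_apply_eq_comp, hqexp y, map_sum, sum_apply]
    refine Finset.sum_congr rfl fun i _ => ?_
    rw [InnerProductSpace.rankOne_apply, map_smul]
  have hΨx : ∀ x : H →L[ℂ] H, Ψ (x * q) = ∑ i, inner ℂ (Z (f i)) (x (f i)) := by
    intro x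
    rw [hxq x, map_sum]
    exact Finset.sum_congr rfl fun i _ => (hZ _ _).symm
  -- the singular values
  let σ : Fin (Module.finrank ℂ F) → ℝ := fun i => ‖Z (f i)‖
  have hσ : ∀ i, 0 ≤ σ i := fun i => norm_nonneg _
  let u : Fin (Module.finrank ℂ F) → H := fun i => ((σ i)⁻¹ : ℂ) • Z (f i)
  have hun : ∀ i, ‖u i‖ ≤ 1 := by
    intro i
    simp only [u]
    rw [norm_smul, norm_inv, Complex.norm_real, Real.norm_of_nonneg (hσ i)]
    by_cases h : σ i = 0
    · rw [h]; simp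
    · exact le_of_eq (inv_mul_cancel₀ h)
  have huo : ∀ i j, i ≠ j → inner ℂ (u i) (u j) = (0 : ℂ) := by
    intro i j hij
    simp only [u]
    rw [inner_smul_left, inner_smul_right, horth i j hij]
    simp
  have hZu : ∀ i, inner ℂ (Z (f i)) (u i) = ((σ i : ℝ) : ℂ) := by
    intro i
    simp only [u]
    rw [inner_smul_right, inner_self_eq_norm_sq_to_K]
    by_cases h : σ i = 0
    · have h' : ‖Z (f i)‖ = 0 := h
      rw [h']
      simp [h]
    · have h' : ((σ i : ℝ) : ℂ) ≠ 0 := by exact_mod_cast h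
      change ((σ i : ℝ) : ℂ)⁻¹ * ((σ i : ℝ) : ℂ) ^ 2 = _
      field_simp
  let x0 : H →L[ℂ] H := ∑ i, InnerProductSpace.rankOne ℂ (u i) (f i)
  have hx0 : ∀ y, x0 y = ∑ i, inner ℂ (f i) y • u i := by
    intro y
    simp only [x0]
    rw [sum_apply]
    refine Finset.sum_congr rfl fun i _ => ?_
    rw [InnerProductSpace.rankOne_apply]
  have hx0n : ‖x0‖ ≤ 1 := by
    refine ContinuousLinearMap.opNorm_le_bound _ zero_le_one fun y => ?_
    rw [one_mul, hx0]
    have h1 := fr_pyth Finset.univ u (fun i => (inner ℂ (f i) y : ℂ))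
      (fun i _ j _ hij => huo i j hij) hun
    have h2 := hfo.sum_inner_products_le (s := Finset.univ) y
    exact (pow_le_pow_iff_left₀ (norm_nonneg _) (norm_nonneg _) two_ne_zero).1 (h1.trans h2)
  have hΨ0 : Ψ x0 = ((∑ i, σ i : ℝ) : ℂ) := by
    simp only [x0]
    rw [map_sum, Complex.ofReal_sum]
    refine Finset.sum_congr rfl fun i _ => ?_
    rw [← hZ, hZu]
  have hsum : ∑ i, σ i ≤ 1 := by
    have h1 : ‖Ψ x0‖ ≤ 1 := by
      calc ‖Ψ x0‖ ≤ ‖Ψ‖ * ‖x0‖ := Ψ.le_opNorm x0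
        _ ≤ 1 * 1 := mul_le_mul hΨ hx0n (norm_nonneg _) zero_le_one
        _ = 1 := one_mul 1
    rw [hΨ0, Complex.norm_real, Real.norm_of_nonneg (Finset.sum_nonneg fun i _ => hσ i)] at h1
    exact h1
  have hsq : ∀ i, ‖((Real.sqrt (σ i) : ℝ) : ℂ)‖ ^ 2 = σ i := by
    intro i
    rw [Complex.norm_real, Real.norm_of_nonneg (Real.sqrt_nonneg _), Real.sq_sqrt (hσ i)]
  refine ⟨fun i => ((Real.sqrt (σ i) : ℝ) : ℂ) • f i, fun i => ((Real.sqrt (σ i) : ℝ) : ℂ) • u i,
    ?_, ?_, ?_, ?_⟩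
  · intro i
    rw [map_smul, hqf]
  · refine le_trans (le_of_eq ?_) hsum
    refine Finset.sum_congr rfl fun i _ => ?_
    rw [norm_smul, mul_pow, hsq, hfo.1 i]
    simp
  · refine le_trans (Finset.sum_le_sum fun i _ => ?_) hsum
    rw [norm_smul, mul_pow, hsq]
    exact mul_le_of_le_one_right (hσ i) (pow_le_one₀ (norm_nonneg _) (hun i))
  · intro x
    rw [hΨx x]
    refine Finset.sum_congr rfl fun i _ => ?_
    rw [map_smul, inner_smul_left, inner_smul_right]
    simp only [u]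
    rw [inner_smul_left, Complex.conj_ofReal, map_inv₀, Complex.conj_ofReal]
    by_cases h : σ i = 0
    · have h' : Z (f i) = 0 := norm_eq_zero.1 h
      rw [h']
      simp
    · have h' : ((σ i : ℝ) : ℂ) ≠ 0 := by exact_mod_cast h
      have h2 : ((Real.sqrt (σ i) : ℝ) : ℂ) * ((Real.sqrt (σ i) : ℝ) : ℂ) = ((σ i : ℝ) : ℂ) := by
        rw [← Complex.ofReal_mul, Real.mul_self_sqrt (hσ i)]
      rw [← mul_assoc, h2, ← mul_assoc, mul_inv_cancel₀ h', one_mul]

end Pool.Agent.Helper509.FR
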