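import Pool.Agent.Helper509.FR.Basic

namespace Pool.Agent.Helper509.FR

open Filter Topology

variable {H : Type*} [NormedAddCommGroup H] [InnerProductSpace ℂ H]

/-! PROOF IN WORDS.
All by induction on k. PP_fin: span of a singleton, finite sup of images of finite dimensional
spaces (Submodule.finiteDimensional_sup, finiteDimensional_iSup). mul_mem_PP: F.g i * p is in the
image for the index ⟨i, _⟩ : Fin (n+1). PP_comm: F.v i * (F.g j * p) = F.g j * (F.v i * p) by
v_comm, and the set of p commuting with F.v i is a submodule. PP_apply: the set of p with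
F.q (r+k+1) (p x) = p x is a submodule; if F.q (r+k) (p x) = p x then, since i ≤ n ≤ r+k,
F.g i (p x) = F.g i (F.q (r+k) (p x)) = F.q (r+k+1) (F.g i (F.q (r+k) (p x))) by g_prop; also
F.q (r+k) y = y implies F.q (r+k+1) y = y by q_mul.
-/

theorem Frame.PP_fin (F : Frame H) (n k : ℕ) : FiniteDimensional ℂ (F.PP n k) := by
  induction k with
  | zero =>
    rw [Frame.PP]
    infer_instance
  | succ k ih =>
    rw [Frame.PP]
    have h1 : ∀ i : Fin (n + 1),
        FiniteDimensional ℂ ((F.PP n k).map (LinearMap.mulLeft ℂ (F.g i))) := fun i => inferInstance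
    infer_instance

theorem Frame.PP_mono (F : Frame H) (n : ℕ) : Monotone (F.PP n) := by
  refine monotone_nat_of_le_succ fun k => ?_
  conv_rhs => rw [Frame.PP]
  exact le_sup_left

theorem Frame.one_mem_PP (F : Frame H) (n k : ℕ) : (1 : H →L[ℂ] H) ∈ F.PP n k := by
  refine F.PP_mono n (Nat.zero_le k) ?_
  rw [Frame.PP]
  exact Submodule.mem_span_singleton_self _

theorem Frame.mul_mem_PP (F : Frame H) (n k i : ℕ) (hi : i ≤ n) (p : H →L[ℂ] H)
    (hp : p ∈ F.PP n k) : F.g i * p ∈ F.PP n (k + 1) := by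
  rw [Frame.PP]
  refine Submodule.mem_sup_right ?_
  refine Submodule.mem_iSup_of_mem (⟨i, by omega⟩ : Fin (n + 1)) ?_
  exact ⟨p, hp, rfl⟩

/-- a submodule containing `1` and closed under `F.g i * ·` contains `F.PP n k` -/
theorem Frame.PP_le_of (F : Frame H) (n k : ℕ) (S : ℕ → Submodule ℂ (H →L[ℂ] H))
    (h1 : (1 : H →L[ℂ] H) ∈ S 0) (hS : ∀ k, S k ≤ S (k + 1))
    (h2 : ∀ k, ∀ i ≤ n, ∀ p ∈ S k, F.g i * p ∈ S (k + 1)) : F.PP n k ≤ S k := by
  induction k with
  | zero =>
    rw [Frame.PP, Submodule.span_singleton_le_iff_mem]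
    exact h1
  | succ k ih =>
    rw [Frame.PP]
    refine sup_le (ih.trans (hS k)) (iSup_le fun i => ?_)
    rintro _ ⟨p, hp, rfl⟩
    exact h2 k i (Nat.lt_succ_iff.1 i.2) p (ih hp)

theorem Frame.PP_le_adjoin (F : Frame H) (n k : ℕ) :
    (F.PP n k : Set (H →L[ℂ] H)) ⊆ (Algebra.adjoin ℂ (Set.range F.g) : Set (H →L[ℂ] H)) := by
  have h := F.PP_le_of n k (fun _ => Subalgebra.toSubmodule (Algebra.adjoin ℂ (Set.range F.g)))
    (one_mem (Algebra.adjoin ℂ (Set.range F.g))) (fun _ => le_rfl)
    (fun _ i _ p hp => mul_mem (s := Algebra.adjoin ℂ (Set.range F.g))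
      (Algebra.subset_adjoin ⟨i, rfl⟩) hp)
  exact h

theorem Frame.PP_comm (F : Frame H) (n k i : ℕ) (p : H →L[ℂ] H) (hp : p ∈ F.PP n k) :
    F.v i * p = p * F.v i := by
  let S : Submodule ℂ (H →L[ℂ] H) :=
    { carrier := {p | F.v i * p = p * F.v i}
      add_mem' := by
        intro a b ha hb
        simp only [Set.mem_setOf_eq] at ha hb ⊢
        rw [mul_add, add_mul, ha, hb]
      zero_mem' := by simp
      smul_mem' := by
        intro c a ha
        simp only [Set.mem_setOf_eq] at ha ⊢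
        rw [mul_smul_comm, smul_mul_assoc, ha] }
  have h := F.PP_le_of n k (fun _ => S) (show F.v i * 1 = 1 * F.v i by rw [mul_one, one_mul])
    (fun _ => le_rfl) (fun _ j _ p hp => ?_)
  · exact h hp
  · change F.v i * (F.g j * p) = F.g j * p * F.v i
    have hp' : F.v i * p = p * F.v i := hp
    rw [← mul_assoc, F.v_comm, mul_assoc, hp', mul_assoc]

theorem Frame.PP_apply (F : Frame H) (n k r : ℕ) (hr : n ≤ r) (x : H) (hx : F.q r x = x)
    (p : H →L[ℂ] H) (hp : p ∈ F.PP n k) : F.q (r + k) (p x) = p x := by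
  let S : ℕ → Submodule ℂ (H →L[ℂ] H) := fun k =>
    { carrier := {p | F.q (r + k) (p x) = p x}
      add_mem' := by
        intro a b ha hb
        simp only [Set.mem_setOf_eq] at ha hb ⊢
        rw [ContinuousLinearMap.add_apply, map_add, ha, hb]
      zero_mem' := by simp
      smul_mem' := by
        intro c a ha
        simp only [Set.mem_setOf_eq] at ha ⊢
        rw [ContinuousLinearMap.smul_apply, map_smul, ha] }
  have h := F.PP_le_of n k S (show F.q (r + 0) ((1 : H →L[ℂ] H) x) = _ from by simpa using hx)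
    (fun k p hp => ?_) (fun k j hj p hp => ?_)
  · exact h hp
  · have hp' : F.q (r + k) (p x) = p x := hp
    change F.q (r + (k + 1)) (p x) = p x
    have h1 : F.q (r + (k + 1)) * F.q (r + k) = F.q (r + k) := by
      rw [F.q_mul, min_eq_right (by omega)]
    conv_lhs => rw [← hp']
    conv_rhs => rw [← hp', ← h1]
    rfl
  · have hp' : F.q (r + k) (p x) = p x := hp
    change F.q (r + (k + 1)) ((F.g j * p) x) = (F.g j * p) x
    have h1 := F.g_prop j (r + k) (by omega)
    have h2 : (F.g j * p) x = (F.g j * F.q (r + k)) (p x) := by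
      rw [ContinuousLinearMap.mul_apply, ContinuousLinearMap.mul_apply, hp']
    rw [h2, ← ContinuousLinearMap.mul_apply, ← add_assoc, h1]

end Pool.Agent.Helper509.FR
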