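import Pool.Agent.Helper509.FR.Slow
import Pool.Agent.Helper509.FR.Func
import Pool.Agent.Helper509.FR.Poly

namespace Pool.Agent.Helper509.FR

open Filter Topology

variable {H : Type*} [NormedAddCommGroup H] [InnerProductSpace ℂ H]
/-! PROOF IN WORDS.
Let P = {p * q r : p in PP n D}, a finite dimensional (closed) subspace of H →L H. Suppose the claim
fails: every element y of P has ‖s * q r - y‖ > 2 δ. By Hahn-Banach (for a closed subspace and a
point at distance d ≥ 2δ from it; e.g. exists_dual_vector in the quotient, or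
exists_extension_norm_eq, or geometric Hahn-Banach) there is Ψ with ‖Ψ‖ ≤ 1, Ψ = 0 on P,
|Ψ (s * q r)| ≥ 2 δ  (any bound > δ suffices). By functional_repr with q = F.q r: Ψ (x * q r) =
sum_i ⟨η i, x (ξ i)⟩, i < m = finrank, q r (ξ i) = ξ i. Put ξ = sum_i v i (ξ i), η = sum_i v i (η i).
By v_iso ‖ξ‖^2 = sum ‖ξ i‖^2 ≤ 1, ‖η‖ ≤ 1, and for x commuting with all v i:
⟨η, x ξ⟩ = sum_{i,j} ⟨v i (η i), v j (x (ξ j))⟩ = sum_i ⟨η i, x (ξ i)⟩ = Ψ (x * q r). This holds for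
x = s and for x in PP n D (PP_comm). With m' = max r m: q m' (ξ i) = ξ i, and v_prop (i < m ≤ m')
gives q (m'+1) (v i (ξ i)) = v i (ξ i), and m'+1 ≤ ρ, so q ρ ξ = ξ. Let p_k be the orthogonal
projection on the finite dimensional space {p ξ : p in PP n k}, k ≥ 0 (for k > D use the same
definition), W = (1/D) sum_{k<D} p_k. They are increasing (PP_mono), g i p_k = p_(k+1) g i p_k
(mul_mem_PP), so by slow_avg and hDg: ‖W‖ ≤ 1, ‖g i W - W g i‖ ≤ (1/2)^n for i ≤ n. By PP_apply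
(n ≤ r ≤ ρ) q (ρ + D) * W = W, and taking adjoints W * q (ρ+D) = W. So W is in WW n. Since ξ is in
the range of p_0, W ξ = ξ, so ‖s ξ - W (s ξ)‖ = ‖(s W - W s) q ρ ξ‖ ≤ δ ‖ξ‖ ≤ δ. W (s ξ) = p ξ for
some p in PP n D (sum of elements of the ranges). Hence
|Ψ (s * q r)| = |⟨η, s ξ⟩| ≤ |⟨η, s ξ - p ξ⟩| + |⟨η, p ξ⟩| ≤ δ + |Ψ (p * q r)| = δ < 2 δ:
contradiction.
-/

theorem hb_aux {E : Type*} [NormedAddCommGroup E] [NormedSpace ℂ E] (P : Submodule ℂ E)
    [FiniteDimensional ℂ P] (x : E) (d : ℝ) (hd : ∀ y ∈ P, d ≤ ‖x - y‖) :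
    ∃ Ψ : E →L[ℂ] ℂ, ‖Ψ‖ ≤ 1 ∧ (∀ y ∈ P, Ψ y = 0) ∧ d ≤ ‖Ψ x‖ := by
  have hcl : IsClosed (P : Set E) := P.closed_of_finiteDimensional
  obtain ⟨g, hg1, hgx⟩ := exists_dual_vector'' ℂ (Submodule.Quotient.mk x : E ⧸ P)
  have hmk : ∀ z : E, ‖P.mkQ z‖ ≤ 1 * ‖z‖ := fun z => by
    rw [one_mul]; exact Submodule.Quotient.norm_mk_le P z
  let π : E →L[ℂ] (E ⧸ P) := P.mkQ.mkContinuous 1 hmk
  have hπ : ‖π‖ ≤ 1 := LinearMap.mkContinuous_norm_le _ zero_le_one _
  refine ⟨g.comp π, ?_, ?_, ?_⟩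
  · calc ‖g.comp π‖ ≤ ‖g‖ * ‖π‖ := ContinuousLinearMap.opNorm_comp_le _ _
      _ ≤ 1 * 1 := mul_le_mul hg1 hπ (ContinuousLinearMap.opNorm_nonneg _) zero_le_one
      _ = 1 := one_mul 1
  · intro y hy
    have h0 : π y = 0 := by
      change P.mkQ y = 0
      rw [Submodule.mkQ_apply, Submodule.Quotient.mk_eq_zero]
      exact hy
    simp [h0]
  · have h1 : (g.comp π) x = (‖(Submodule.Quotient.mk x : E ⧸ P)‖ : ℂ) := hgx
    rw [h1]
    rw [Complex.norm_real, norm_norm]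
    refine le_of_forall_pos_lt_add ?_
    intro ε hε
    obtain ⟨m, hm, hlt⟩ := Submodule.Quotient.norm_mk_lt (Submodule.Quotient.mk x : E ⧸ P) hε
    have hmem : x - m ∈ P := by
      rw [← Submodule.Quotient.mk_eq_zero P, Submodule.Quotient.mk_sub, hm, sub_self]
    have := hd _ hmem
    rw [sub_sub_cancel] at this
    linarith

theorem Frame.approx_on_range [CompleteSpace H] (F : Frame H) (n D r ρ : ℕ) (hD : 0 < D)
    (hDg : ∀ i ≤ n, 2 * ‖F.g i‖ / D ≤ (1 / 2 : ℝ) ^ n)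
    (hnr : n ≤ r) (hr : r + 1 ≤ ρ)
    (hr' : Module.finrank ℂ (LinearMap.range (F.q r : H →ₗ[ℂ] H)) + 1 ≤ ρ)
    (s : H →L[ℂ] H) (hsv : ∀ i, s * F.v i = F.v i * s) (δ : ℝ) (hδ : 0 < δ)
    (hs : ∀ W ∈ F.WW n, ‖(s * W - W * s) * F.q ρ‖ ≤ δ) :
    ∃ p ∈ F.PP n D, ‖(s - p) * F.q r‖ ≤ 2 * δ := by
  by_contra hcon
  push Not at hcon
  -- Hahn-Banach
  have := F.PP_fin n D
  let P : Submodule ℂ (H →L[ℂ] H) := (F.PP n D).map (LinearMap.mulRight ℂ (F.q r))
  have hP : ∀ y ∈ P, 2 * δ ≤ ‖s * F.q r - y‖ := by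
    intro y hy
    obtain ⟨p, hp, rfl⟩ := (Submodule.mem_map).1 hy
    rw [LinearMap.mulRight_apply, ← sub_mul]
    exact (hcon p hp).le
  obtain ⟨Ψ, hΨ1, hΨP, hΨs⟩ := hb_aux P (s * F.q r) (2 * δ) hP
  obtain ⟨ξ', η', hqξ, hξ1, hη1, hrep⟩ := functional_repr (F.q r) (F.q_sa r)
    (by rw [F.q_mul, min_self]) (F.q_fin r) Ψ hΨ1
  generalize hm : Module.finrank ℂ (LinearMap.range (F.q r : H →ₗ[ℂ] H)) = m at *
  set ξ : H := ∑ i : Fin m, F.v i (ξ' i) with hξ
  set η : H := ∑ i : Fin m, F.v i (η' i) with hη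
  -- norms
  have hinner : ∀ (a b : Fin m → H),
      inner ℂ (∑ i : Fin m, F.v i (a i)) (∑ i : Fin m, F.v i (b i)) =
        ∑ i : Fin m, inner ℂ (a i) (b i) := by
    intro a b
    rw [sum_inner]
    refine Finset.sum_congr rfl fun i _ => ?_
    rw [inner_sum]
    rw [Finset.sum_eq_single i]
    · rw [F.v_iso, if_pos rfl]
    · intro j _ hj
      rw [F.v_iso, if_neg]
      intro h
      exact hj (Fin.ext h.symm)
    · intro h
      exact absurd (Finset.mem_univ i) h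
  have hnorm : ∀ (a : Fin m → H), ∑ i, ‖a i‖ ^ 2 ≤ 1 → ‖∑ i : Fin m, F.v i (a i)‖ ≤ 1 := by
    intro a ha
    have h1 := hinner a a
    have h2 : (‖∑ i : Fin m, F.v i (a i)‖ : ℝ) ^ 2 = ∑ i, ‖a i‖ ^ 2 := by
      have h3 : ((‖∑ i : Fin m, F.v i (a i)‖ ^ 2 : ℝ) : ℂ) = ((∑ i, ‖a i‖ ^ 2 : ℝ) : ℂ) := by
        rw [inner_self_eq_norm_sq_to_K] at h1
        push_cast
        simp only [inner_self_eq_norm_sq_to_K] at h1
        exact_mod_cast h1
      exact_mod_cast h3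
    have h4 : (‖∑ i : Fin m, F.v i (a i)‖ : ℝ) ^ 2 ≤ 1 := h2 ▸ ha
    exact (sq_le_one_iff₀ (norm_nonneg _)).1 h4
  have hξn : ‖ξ‖ ≤ 1 := hnorm ξ' hξ1
  have hηn : ‖η‖ ≤ 1 := hnorm η' hη1
  -- representation for commuting operators
  have hcomm : ∀ x : H →L[ℂ] H, (∀ i, x * F.v i = F.v i * x) →
      Ψ (x * F.q r) = inner ℂ η (x ξ) := by
    intro x hx
    rw [hrep x, hξ, hη, map_sum]
    have : ∑ i : Fin m, x (F.v i (ξ' i)) = ∑ i : Fin m, F.v i (x (ξ' i)) := by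
      refine Finset.sum_congr rfl fun i _ => ?_
      have := congrArg (fun T : H →L[ℂ] H => T (ξ' i)) (hx i)
      simpa using this
    rw [this, hinner]
  -- q ρ ξ = ξ
  have hqmul : ∀ (a b : ℕ) (x : H), F.q a (F.q b x) = F.q (min a b) x := by
    intro a b x
    have := congrArg (fun T : H →L[ℂ] H => T x) (F.q_mul a b)
    simpa using this
  have hqup : ∀ (a b : ℕ) (x : H), a ≤ b → F.q a x = x → F.q b x = x := by
    intro a b x hab hx
    rw [← hx, hqmul, min_eq_right hab]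
  have hqξρ : F.q ρ ξ = ξ := by
    rw [hξ, map_sum]
    refine Finset.sum_congr rfl fun i _ => ?_
    -- k = max r m
    have hk : (i : ℕ) ≤ max r m := le_trans i.2.le (le_max_right _ _)
    have h1 := F.v_prop i (max r m) hk
    have h2 := congrArg (fun T : H →L[ℂ] H => T (ξ' i)) h1
    simp only [ContinuousLinearMap.mul_apply] at h2
    rw [hqup r (max r m) (ξ' i) (le_max_left _ _) (hqξ i)] at h2
    refine hqup (max r m + 1) ρ _ ?_ h2
    have : max r m ≤ ρ - 1 := max_le (by omega) (by omega)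
    omega
  -- the spaces E k
  let E : ℕ → Submodule ℂ H := fun k =>
    (F.PP n k).map ((ContinuousLinearMap.apply ℂ H ξ : (H →L[ℂ] H) →L[ℂ] H) : (H →L[ℂ] H) →ₗ[ℂ] H)
  have hEmem : ∀ k (y : H), y ∈ E k ↔ ∃ p ∈ F.PP n k, p ξ = y := by
    intro k y
    simp only [E, Submodule.mem_map]
    rfl
  have hEfin : ∀ k, FiniteDimensional ℂ (E k) := by
    intro k
    have := F.PP_fin n k
    exact inferInstanceAs (FiniteDimensional ℂ ((F.PP n k).map _))
  have hEmono : ∀ k l, k ≤ l → E k ≤ E l := by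
    intro k l hkl
    exact Submodule.map_mono (F.PP_mono n hkl)
  have hξE : ∀ k, ξ ∈ E k := fun k => (hEmem k ξ).2 ⟨1, F.one_mem_PP n k, rfl⟩
  let p : ℕ → (H →L[ℂ] H) := fun k => (E k).starProjection
  have hprange : ∀ k x, p k x ∈ E k := fun k x => Submodule.starProjection_apply_mem _ _
  have hpid : ∀ k x, x ∈ E k → p k x = x := fun k x hx =>
    (Submodule.starProjection_eq_self_iff).2 hx
  have hpsa : ∀ k (x y : H), inner ℂ (p k x) y = inner ℂ x (p k y) := by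
    intro k x y
    exact Submodule.inner_starProjection_left_eq_right (E k) x y
  have hpmul : ∀ k l, p k * p l = p (min k l) := by
    intro k l
    rcases le_total k l with h | h
    · rw [min_eq_left h]
      ext x
      -- p k (p l x) = p k x
      apply ext_inner_right ℂ
      intro y
      rw [ContinuousLinearMap.mul_apply, hpsa, hpsa, hpsa, hpid l (p k y) (hEmono k l h (hprange k y))]
    · rw [min_eq_right h]
      ext x
      rw [ContinuousLinearMap.mul_apply, hpid k _ (hEmono l k h (hprange l x))]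
  have hpg : ∀ i ≤ n, ∀ k, p (k + 1) * (F.g i * p k) = F.g i * p k := by
    intro i hi k
    ext x
    rw [ContinuousLinearMap.mul_apply]
    apply hpid
    obtain ⟨a, ha, hax⟩ := (hEmem k (p k x)).1 (hprange k x)
    rw [ContinuousLinearMap.mul_apply, ← hax]
    exact (hEmem (k + 1) _).2 ⟨F.g i * a, F.mul_mem_PP n k i hi a ha, rfl⟩
  set W : H →L[ℂ] H := (D : ℂ)⁻¹ • ∑ k ∈ Finset.range D, p k with hW
  have hDpos : (0 : ℝ) < D := by exact_mod_cast hD
  have hDne : (D : ℂ) ≠ 0 := by exact_mod_cast hD.ne'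
  have hWn : ‖W‖ ≤ 1 :=
    (slow_avg D hD p (F.g 0) hpsa hpmul (F.g_sa 0) (fun k _ => hpg 0 (Nat.zero_le n) k)).1
  have hWg : ∀ i ≤ n, ‖F.g i * W - W * F.g i‖ ≤ (1 / 2 : ℝ) ^ n := by
    intro i hi
    exact (slow_avg D hD p (F.g i) hpsa hpmul (F.g_sa i) (fun k _ => hpg i hi k)).2.trans (hDg i hi)
  have hqp : ∀ k < D, F.q (ρ + D) * p k = p k := by
    intro k hk
    ext x
    rw [ContinuousLinearMap.mul_apply]
    obtain ⟨a, ha, hax⟩ := (hEmem k (p k x)).1 (hprange k x)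
    rw [← hax]
    exact hqup (ρ + k) (ρ + D) _ (by omega) (F.PP_apply n k ρ (by omega) ξ hqξρ a ha)
  have hpq : ∀ k < D, p k * F.q (ρ + D) = p k := by
    intro k hk
    ext x
    apply ext_inner_right ℂ
    intro y
    have h1 := congrArg (fun T : H →L[ℂ] H => T y) (hqp k hk)
    simp only [ContinuousLinearMap.mul_apply] at h1
    rw [ContinuousLinearMap.mul_apply, hpsa, F.q_sa, h1, hpsa]
  have hWmem : W ∈ F.WW n := by
    refine ⟨hWn, ⟨ρ + D, ?_⟩, hWg⟩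
    have h1 : F.q (ρ + D) * W = W := by
      rw [hW, mul_smul_comm, Finset.mul_sum]
      congr 1
      exact Finset.sum_congr rfl fun k hk => hqp k (Finset.mem_range.1 hk)
    have h2 : W * F.q (ρ + D) = W := by
      rw [hW, smul_mul_assoc, Finset.sum_mul]
      congr 1
      exact Finset.sum_congr rfl fun k hk => hpq k (Finset.mem_range.1 hk)
    rw [h1, h2]
  have hWξ : W ξ = ξ := by
    rw [hW, ContinuousLinearMap.smul_apply, ContinuousLinearMap.sum_apply]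
    rw [Finset.sum_congr rfl fun k _ => hpid k ξ (hξE k)]
    rw [Finset.sum_const, Finset.card_range, ← Nat.cast_smul_eq_nsmul ℂ, smul_smul,
      inv_mul_cancel₀ hDne, one_smul]
  have hWs : ∃ a ∈ F.PP n D, a ξ = W (s ξ) := by
    rw [← hEmem, hW, ContinuousLinearMap.smul_apply, ContinuousLinearMap.sum_apply]
    refine Submodule.smul_mem _ _ (Submodule.sum_mem _ fun k hk => ?_)
    exact hEmono k D (Finset.mem_range.1 hk).le (hprange k _)
  obtain ⟨a, ha, haξ⟩ := hWs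
  have hbound : ‖s ξ - a ξ‖ ≤ δ := by
    have h1 : s ξ - a ξ = ((s * W - W * s) * F.q ρ) ξ := by
      rw [ContinuousLinearMap.mul_apply, hqξρ, ContinuousLinearMap.sub_apply,
        ContinuousLinearMap.mul_apply, ContinuousLinearMap.mul_apply, hWξ, haξ]
    rw [h1]
    calc ‖((s * W - W * s) * F.q ρ) ξ‖ ≤ ‖(s * W - W * s) * F.q ρ‖ * ‖ξ‖ :=
          ContinuousLinearMap.le_opNorm _ _
      _ ≤ δ * 1 := mul_le_mul (hs W hWmem) hξn (norm_nonneg _) hδ.le
      _ = δ := mul_one δ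
  have hΨs' : Ψ (s * F.q r) = inner ℂ η (s ξ) := hcomm s hsv
  have hΨa : inner ℂ η (a ξ) = (0 : ℂ) := by
    rw [← hcomm a (fun i => (F.PP_comm n D i a ha).symm)]
    exact hΨP _ ((Submodule.mem_map).2 ⟨a, ha, rfl⟩)
  have hfin : ‖Ψ (s * F.q r)‖ ≤ δ := by
    have h1 : Ψ (s * F.q r) = inner ℂ η (s ξ - a ξ) := by
      rw [inner_sub_right, hΨa, sub_zero, hΨs']
    rw [h1]
    calc ‖(inner ℂ η (s ξ - a ξ) : ℂ)‖ ≤ ‖η‖ * ‖s ξ - a ξ‖ := norm_inner_le_norm _ _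
      _ ≤ 1 * δ := mul_le_mul hηn hbound (norm_nonneg _) zero_le_one
      _ = δ := one_mul δ
  linarith

end Pool.Agent.Helper509.FR
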