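import Pool.Agent.Helper509.FR.Slow

namespace Pool.Agent.Helper509.FR

open Filter Topology

variable {H : Type*} [NormedAddCommGroup H] [InnerProductSpace ℂ H]
/-! PROOF IN WORDS.
Fix i. For K, D' > 0 let J = (1/D') sum_{k<D'} q (K + k). For j ≤ K: ‖g j J - J g j‖ ≤
2 ‖g j‖ / D' and ‖J‖ ≤ 1 by slow_avg (with p k = q (K+k); g_prop). J * q m = q m for m ≤ K, and
J * q(K+D') = J = q(K+D') * J. Let W = v i * J: ‖W‖ ≤ 1 (v i is an isometry), for i ≤ K: by v_prop
and q_mul, q (K+D'+1) * W * q (K+D'+1) = W; and g j W - W g j = v i (g j J - J g j) by v_comm, so for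
γ ≤ K and D' large (2 ‖g j‖/D' ≤ (1/2)^γ for j ≤ γ) W is in WW γ. Given x with q m x = x, N and
δ, take γ ≥ max N m as in hs; as m ≤ γ ≤ ρ γ, q (ρ γ) x = x and (K ≥ ρ γ) J x = x, hence
‖s (v i x) - v i (J (s x))‖ ≤ δ ‖x‖ for all large K. Let K → ∞: J (s x) → s x (J y → y
for every y, because q (K+k) y → y uniformly in k as K → ∞; ‖J y - y‖ ≤ sup_k ‖q(K+k) y - y‖
and ‖q(K+k) y - y‖ ≤ ‖q K y - y‖). So ‖s (v i x) - v i (s x)‖ ≤ δ ‖x‖ for all δ > 0: equality on
the dense set of x with q m x = x for some m (dense by q_lim), hence everywhere by continuity.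
-/

/-- The slow cut-off. -/
noncomputable def Frame.J (F : Frame H) (K D : ℕ) : H →L[ℂ] H :=
  (D : ℂ)⁻¹ • ∑ k ∈ Finset.range D, F.q (K + k)

theorem Frame.J_mul_q (F : Frame H) {K D m : ℕ} (hD : 0 < D) (hm : m ≤ K) :
    F.J K D * F.q m = F.q m := by
  unfold Frame.J
  rw [smul_mul_assoc, Finset.sum_mul, Finset.sum_congr rfl (g := fun _ => F.q m) (fun k _ => by
    rw [F.q_mul, min_eq_right (by omega)])]
  rw [Finset.sum_const, Finset.card_range, ← Nat.cast_smul_eq_nsmul ℂ, smul_smul,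
    inv_mul_cancel₀ (by exact_mod_cast hD.ne'), one_smul]

theorem Frame.J_mul_q' (F : Frame H) {K D m : ℕ} (hm : K + D ≤ m) :
    F.J K D * F.q m = F.J K D := by
  unfold Frame.J
  rw [smul_mul_assoc, Finset.sum_mul]
  congr 1
  refine Finset.sum_congr rfl fun k hk => ?_
  rw [Finset.mem_range] at hk
  rw [F.q_mul, min_eq_left (by omega)]

theorem Frame.q_mul_J (F : Frame H) {K D m : ℕ} (hm : K + D ≤ m) :
    F.q m * F.J K D = F.J K D := by
  unfold Frame.J
  rw [mul_smul_comm, Finset.mul_sum]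
  congr 1
  refine Finset.sum_congr rfl fun k hk => ?_
  rw [Finset.mem_range] at hk
  rw [F.q_mul, min_eq_right (by omega)]

theorem Frame.J_tendsto (F : Frame H) {D : ℕ} (hD : 0 < D) (y : H) :
    Tendsto (fun K => F.J K D y) atTop (𝓝 y) := by
  have h1 : ∀ k, Tendsto (fun K => F.q (K + k) y) atTop (𝓝 y) := fun k =>
    (F.q_lim y).comp (tendsto_add_atTop_nat k)
  have h2 : Tendsto (fun K => (D : ℂ)⁻¹ • ∑ k ∈ Finset.range D, F.q (K + k) y) atTop
      (𝓝 ((D : ℂ)⁻¹ • ∑ k ∈ Finset.range D, y)) :=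
    (tendsto_finset_sum _ fun k _ => h1 k).const_smul _
  have h3 : (D : ℂ)⁻¹ • ∑ k ∈ Finset.range D, y = y := by
    rw [Finset.sum_const, Finset.card_range, ← Nat.cast_smul_eq_nsmul ℂ, smul_smul,
      inv_mul_cancel₀ (by exact_mod_cast hD.ne'), one_smul]
  rw [h3] at h2
  refine h2.congr fun K => ?_
  unfold Frame.J
  rw [ContinuousLinearMap.smul_apply, ContinuousLinearMap.sum_apply]

theorem Frame.norm_v (F : Frame H) (i : ℕ) (x : H) : ‖F.v i x‖ = ‖x‖ := by
  have h := F.v_iso i i x x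
  rw [if_pos rfl, inner_self_eq_norm_sq_to_K, inner_self_eq_norm_sq_to_K] at h
  have h2 : ‖F.v i x‖ ^ 2 = ‖x‖ ^ 2 := by exact_mod_cast h
  exact (pow_left_inj₀ (norm_nonneg _) (norm_nonneg _) two_ne_zero).1 h2

theorem Frame.norm_v_le (F : Frame H) (i : ℕ) : ‖F.v i‖ ≤ 1 :=
  ContinuousLinearMap.opNorm_le_bound _ zero_le_one fun x => by rw [F.norm_v, one_mul]

theorem Frame.J_avg [CompleteSpace H] (F : Frame H) {K D j : ℕ} (hD : 0 < D) (hj : j ≤ K) :
    ‖F.J K D‖ ≤ 1 ∧ ‖F.g j * F.J K D - F.J K D * F.g j‖ ≤ 2 * ‖F.g j‖ / D :=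
  slow_avg D hD (fun k => F.q (K + k)) (F.g j) (fun k => F.q_sa _)
    (fun k l => by rw [F.q_mul]; congr 1; omega) (F.g_sa j)
    (fun k _ => by
      have := F.g_prop j (K + k) (by omega)
      rw [← add_assoc]
      exact this)

theorem Frame.W_mem [CompleteSpace H] (F : Frame H) {i γ K D : ℕ} (hD : 0 < D) (hi : i ≤ K)
    (hγ : γ ≤ K) (hb : ∀ j ≤ γ, 2 * ‖F.g j‖ / D ≤ (1 / 2) ^ γ) :
    F.v i * F.J K D ∈ F.WW γ := by
  refine ⟨?_, ⟨K + D + 1, ?_⟩, fun j hj => ?_⟩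
  · refine (norm_mul_le _ _).trans ?_
    exact mul_le_one₀ (F.norm_v_le i) (norm_nonneg _) (F.J_avg hD (Nat.zero_le K)).1
  · rw [mul_assoc, mul_assoc, F.J_mul_q' (by omega)]
    have h1 := F.v_prop i (K + D) (by omega)
    calc F.q (K + D + 1) * (F.v i * F.J K D)
        = F.q (K + D + 1) * (F.v i * F.q (K + D)) * F.J K D := by
          rw [mul_assoc, mul_assoc, F.q_mul_J le_rfl]
      _ = F.v i * F.q (K + D) * F.J K D := by rw [h1]
      _ = F.v i * F.J K D := by rw [mul_assoc, F.q_mul_J le_rfl]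
  · have h1 : F.g j * (F.v i * F.J K D) - F.v i * F.J K D * F.g j =
        F.v i * (F.g j * F.J K D - F.J K D * F.g j) := by
      rw [← mul_assoc, ← F.v_comm i j, mul_sub, mul_assoc, mul_assoc]
    rw [h1]
    refine (norm_mul_le _ _).trans ?_
    have h2 := (F.J_avg (K := K) (j := j) hD (by omega)).2
    calc ‖F.v i‖ * ‖F.g j * F.J K D - F.J K D * F.g j‖
        ≤ 1 * ‖F.g j * F.J K D - F.J K D * F.g j‖ :=
          mul_le_mul_of_nonneg_right (F.norm_v_le i) (norm_nonneg _)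
      _ ≤ 2 * ‖F.g j‖ / D := by rw [one_mul]; exact h2
      _ ≤ (1 / 2) ^ γ := hb j hj

theorem exists_D (g : ℕ → ℝ) (γ : ℕ) : ∃ D : ℕ, 0 < D ∧ ∀ j ≤ γ, 2 * g j / D ≤ (1 / 2) ^ γ := by
  have h1 : ∀ j, Tendsto (fun D : ℕ => 2 * g j / (D : ℝ)) atTop (𝓝 0) := fun j =>
    tendsto_const_div_atTop_nhds_zero_nat _
  have h2 : ∀ᶠ D : ℕ in atTop, ∀ j ∈ Finset.range (γ + 1), 2 * g j / (D : ℝ) ≤ (1 / 2) ^ γ := by
    rw [Filter.eventually_all_finset]
    intro j _
    exact (h1 j).eventually_le_const (by positivity)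
  obtain ⟨D, hD1, hD2⟩ := (h2.and (eventually_gt_atTop 0)).exists
  exact ⟨D, hD2, fun j hj => hD1 j (Finset.mem_range.2 (by omega))⟩

theorem Frame.comm_v [CompleteSpace H] (F : Frame H) (ρ : ℕ → ℕ) (hρ : ∀ n, n ≤ ρ n)
    (s : H →L[ℂ] H)
    (hs : ∀ δ > 0, ∀ N, ∃ γ ≥ N, ∀ W ∈ F.WW γ, ‖(s * W - W * s) * F.q (ρ γ)‖ ≤ δ) :
    ∀ i, s * F.v i = F.v i * s := by
  intro i
  have key : ∀ m x, F.q m x = x → s (F.v i x) = F.v i (s x) := by
    intro m x hx
    have hle : ∀ δ > 0, ‖s (F.v i x) - F.v i (s x)‖ ≤ δ * ‖x‖ := by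
      intro δ hδ
      obtain ⟨γ, hγ, hW⟩ := hs δ hδ m
      obtain ⟨D, hD, hb⟩ := exists_D (fun j => ‖F.g j‖) γ
      have hq : F.q (ρ γ) x = x := by
        have h1 : (F.q (ρ γ) * F.q m) x = F.q m x := by
          rw [F.q_mul, min_eq_right (hγ.trans (hρ γ))]
        rw [ContinuousLinearMap.mul_apply, hx] at h1
        exact h1
      have h1 : ∀ K, max (max γ i) m ≤ K →
          ‖s (F.v i x) - F.v i (F.J K D (s x))‖ ≤ δ * ‖x‖ := by
        intro K hK
        have hK1 : γ ≤ K := (le_max_left _ _).trans ((le_max_left _ _).trans hK)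
        have hK2 : i ≤ K := (le_max_right _ _).trans ((le_max_left _ _).trans hK)
        have hK3 : m ≤ K := (le_max_right _ _).trans hK
        have h2 := hW _ (F.W_mem hD hK2 hK1 hb)
        have h3 := ContinuousLinearMap.le_of_opNorm_le _ h2 x
        have h4 : F.J K D x = x := by
          have h5 : (F.J K D * F.q m) x = F.q m x := by rw [F.J_mul_q hD hK3]
          rw [ContinuousLinearMap.mul_apply, hx] at h5
          exact h5
        rw [ContinuousLinearMap.mul_apply, hq, ContinuousLinearMap.sub_apply,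
          ContinuousLinearMap.mul_apply, ContinuousLinearMap.mul_apply,
          ContinuousLinearMap.mul_apply, ContinuousLinearMap.mul_apply, h4] at h3
        exact h3
      have h2 : Tendsto (fun K => ‖s (F.v i x) - F.v i (F.J K D (s x))‖) atTop
          (𝓝 ‖s (F.v i x) - F.v i (s x)‖) :=
        (tendsto_const_nhds.sub (((F.v i).continuous.tendsto _).comp
          (F.J_tendsto hD (s x)))).norm
      exact le_of_tendsto h2 (eventually_atTop.2 ⟨_, h1⟩)
    have h0 : ‖s (F.v i x) - F.v i (s x)‖ ≤ 0 := by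
      refine le_of_forall_pos_le_add fun ε hε => ?_
      have h1 := hle (ε / (‖x‖ + 1)) (by positivity)
      refine h1.trans ?_
      rw [zero_add, div_mul_eq_mul_div, div_le_iff₀ (by positivity)]
      nlinarith [norm_nonneg x]
    exact sub_eq_zero.1 (norm_le_zero_iff.1 h0)
  ext x
  have h1 : Tendsto (fun m => s (F.v i (F.q m x))) atTop (𝓝 (s (F.v i x))) :=
    ((s.continuous.comp (F.v i).continuous).tendsto x).comp (F.q_lim x)
  have h2 : Tendsto (fun m => F.v i (s (F.q m x))) atTop (𝓝 (F.v i (s x))) :=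
    (((F.v i).continuous.comp s.continuous).tendsto x).comp (F.q_lim x)
  have h3 : (fun m => s (F.v i (F.q m x))) = fun m => F.v i (s (F.q m x)) := by
    funext m
    refine key m _ ?_
    have h4 : (F.q m * F.q m) x = F.q m x := by rw [F.q_mul, min_self]
    exact h4
  rw [h3] at h1
  exact tendsto_nhds_unique h1 h2

end Pool.Agent.Helper509.FR
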