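import Pool.Agent.Helper509.FR.Slow
import Pool.Agent.Helper509.FR.Poly

namespace Pool.Agent.Helper509.FR

open Filter Topology

variable {H : Type*} [NormedAddCommGroup H] [InnerProductSpace ℂ H]
open scoped MatrixOrder ComplexOrder in
open Matrix in
theorem psd_factor {n : ℕ} (A : Matrix (Fin n) (Fin n) ℂ) (h1 : A.IsHermitian)
    (h2 : ∀ x, 0 ≤ star x ⬝ᵥ (A *ᵥ x)) :
    ∃ w : Fin n → EuclideanSpace ℂ (Fin n), ∀ i j, inner ℂ (w i) (w j) = A i j := by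
  obtain ⟨B, hB⟩ := CStarAlgebra.nonneg_iff_eq_star_mul_self.mp
    (Matrix.PosSemidef.of_dotProduct_mulVec_nonneg h1 h2).nonneg
  refine ⟨fun j => WithLp.toLp 2 (fun i => B i j), fun i j => ?_⟩
  rw [hB]
  simp [Matrix.mul_apply, PiLp.inner_apply, Matrix.star_apply, mul_comm]

theorem inner_expand {E : Type*} [AddCommGroup E] [Module ℂ E] {m : ℕ}
    (b : Module.Basis (Fin m) ℂ E) {K : Type*} [NormedAddCommGroup K] [InnerProductSpace ℂ K]
    (u : E →ₗ[ℂ] K) (p q : E) :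
    inner ℂ (u p) (u q) = ∑ i, ∑ j, (starRingEnd ℂ) (b.repr p i) * (b.repr q j) *
      inner ℂ (u (b i)) (u (b j)) := by
  conv_lhs => rw [← b.sum_repr p, ← b.sum_repr q]
  simp only [map_sum, map_smul]
  rw [sum_inner]
  refine Finset.sum_congr rfl fun i _ => ?_
  rw [inner_smul_left, inner_sum, Finset.mul_sum]
  refine Finset.sum_congr rfl fun j _ => ?_
  rw [inner_smul_right]
  ring

open scoped ComplexOrder in
theorem exists_gram_limit {E : Type*} [AddCommGroup E] [Module ℂ E] [FiniteDimensional ℂ E]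
    (u : ℕ → E →ₗ[ℂ] H) (C : E → ℝ) (hC : ∀ k e, ‖u k e‖ ≤ C e) :
    ∃ (m : ℕ) (κ : E →ₗ[ℂ] EuclideanSpace ℂ (Fin m)) (φ : ℕ → ℕ), StrictMono φ ∧
      ∀ p q : E, Tendsto (fun k => inner ℂ (u (φ k) p) (u (φ k) q)) atTop
        (𝓝 (inner ℂ (κ p) (κ q))) := by
  classical
  let b : Module.Basis (Fin (Module.finrank ℂ E)) ℂ E := Module.finBasis ℂ E
  let G : ℕ → Fin (Module.finrank ℂ E) → Fin (Module.finrank ℂ E) → ℂ :=
    fun k i j => inner ℂ (u k (b i)) (u k (b j))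
  have hbd : ∀ k, G k ∈ Set.pi Set.univ (fun i => Set.pi Set.univ fun j =>
      Metric.closedBall (0:ℂ) (C (b i) * C (b j))) := by
    intro k i _ j _
    rw [mem_closedBall_zero_iff]
    refine (norm_inner_le_norm _ _).trans ?_
    exact mul_le_mul (hC k _) (hC k _) (norm_nonneg _) ((norm_nonneg _).trans (hC k _))
  have hb : Bornology.IsBounded (Set.pi Set.univ (fun i => Set.pi Set.univ fun j =>
      Metric.closedBall (0:ℂ) (C (b i) * C (b j)))) :=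
    Bornology.IsBounded.pi fun i => Bornology.IsBounded.pi fun j => Metric.isBounded_closedBall
  obtain ⟨A, -, φ, hφ, hA⟩ := tendsto_subseq_of_bounded hb hbd
  have hA' : ∀ i j, Tendsto (fun k => G (φ k) i j) atTop (𝓝 (A i j)) := by
    intro i j
    exact tendsto_pi_nhds.1 (tendsto_pi_nhds.1 hA i) j
  have hherm : (Matrix.of A).IsHermitian := by
    ext i j
    rw [Matrix.conjTranspose_apply, Matrix.of_apply, Matrix.of_apply]
    have h1 := (Complex.continuous_conj.tendsto _).comp (hA' j i)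
    refine tendsto_nhds_unique h1 ((hA' i j).congr fun k => ?_)
    simp only [Function.comp, G]
    exact (inner_conj_symm _ _).symm
  have hlim : ∀ x y : Fin (Module.finrank ℂ E) → ℂ,
      Tendsto (fun k => ∑ i, ∑ j, (starRingEnd ℂ) (x i) * y j * G (φ k) i j) atTop
        (𝓝 (∑ i, ∑ j, (starRingEnd ℂ) (x i) * y j * A i j)) := by
    intro x y
    refine tendsto_finsetSum _ fun i _ => tendsto_finsetSum _ fun j _ => ?_
    exact (hA' i j).const_mul _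
  have hpos : ∀ x, 0 ≤ dotProduct (star x) (Matrix.mulVec (Matrix.of A) x) := by
    intro x
    have h1 : dotProduct (star x) (Matrix.mulVec (Matrix.of A) x)
        = ∑ i, ∑ j, (starRingEnd ℂ) (x i) * x j * A i j := by
      simp only [dotProduct, Matrix.mulVec, Pi.star_apply, Matrix.of_apply, Finset.mul_sum]
      refine Finset.sum_congr rfl fun i _ => Finset.sum_congr rfl fun j _ => ?_
      rw [← starRingEnd_apply]; ring
    rw [h1]
    have h2 : ∀ k, 0 ≤ ∑ i, ∑ j, (starRingEnd ℂ) (x i) * x j * G (φ k) i j := by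
      intro k
      have h3 : ∑ i, ∑ j, (starRingEnd ℂ) (x i) * x j * G (φ k) i j
        = inner ℂ (u (φ k) (∑ i, x i • b i)) (u (φ k) (∑ i, x i • b i)) := by
        rw [inner_expand b]
        simp only [G, Module.Basis.repr_sum_self]
      rw [h3, inner_self_eq_norm_sq_to_K]
      rw [← RCLike.ofReal_pow]
      exact RCLike.ofReal_nonneg.2 (sq_nonneg _)
    exact ge_of_tendsto' (hlim x x) h2
  obtain ⟨w, hw⟩ := psd_factor (Matrix.of A) hherm hpos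
  refine ⟨_, b.constr ℂ w, φ, hφ, fun p q => ?_⟩
  rw [inner_expand b]
  simp only [Module.Basis.constr_basis, hw, Matrix.of_apply]
  refine (hlim (b.repr p) (b.repr q)).congr fun k => ?_
  rw [inner_expand b]

theorem norm_le_sum_basis {K : Type*} [NormedAddCommGroup K] [InnerProductSpace ℂ K] {m : ℕ}
    (b : OrthonormalBasis (Fin m) ℂ K) {G : Type*} [NormedAddCommGroup G] [NormedSpace ℂ G]
    (S : K →L[ℂ] G) : ‖S‖ ≤ ∑ i, ‖S (b i)‖ := by
  refine S.opNorm_le_bound (by positivity) fun x => ?_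
  calc ‖S x‖ = ‖S (∑ i, (inner ℂ (b i) x : ℂ) • b i)‖ := by rw [b.sum_repr']
    _ ≤ ∑ i, ‖S (b i)‖ * ‖x‖ := by
        rw [map_sum]
        refine norm_sum_le_of_le _ fun i _ => ?_
        rw [map_smul, norm_smul, mul_comm]
        refine mul_le_mul_of_nonneg_left ?_ (norm_nonneg _)
        simpa using norm_inner_le_norm (𝕜 := ℂ) (b i) x
    _ = (∑ i, ‖S (b i)‖) * ‖x‖ := by rw [Finset.sum_mul]

theorem vec_le_sum_basis {K : Type*} [NormedAddCommGroup K] [InnerProductSpace ℂ K] {m : ℕ}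
    (b : OrthonormalBasis (Fin m) ℂ K) (y : K) : ‖y‖ ≤ ∑ i, ‖(inner ℂ (b i) y : ℂ)‖ := by
  calc ‖y‖ = ‖∑ i, (inner ℂ (b i) y : ℂ) • b i‖ := by rw [b.sum_repr']
    _ ≤ ∑ i, ‖(inner ℂ (b i) y : ℂ)‖ := by
        refine norm_sum_le_of_le _ fun i _ => ?_
        rw [norm_smul]; simp

theorem tendsto_op {K : Type*} [NormedAddCommGroup K] [InnerProductSpace ℂ K] {m : ℕ}
    (b : OrthonormalBasis (Fin m) ℂ K) {G : Type*} [NormedAddCommGroup G] [NormedSpace ℂ G]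
    (S : ℕ → K →L[ℂ] G) (h : ∀ x, Tendsto (fun k => ‖S k x‖) atTop (𝓝 0)) :
    Tendsto (fun k => ‖S k‖) atTop (𝓝 0) := by
  refine squeeze_zero (fun _ => norm_nonneg _) (fun k => norm_le_sum_basis b (S k)) ?_
  simpa using tendsto_finsetSum Finset.univ fun i _ => h (b i)

theorem tendsto_vec {K : Type*} [NormedAddCommGroup K] [InnerProductSpace ℂ K] {m : ℕ}
    (b : OrthonormalBasis (Fin m) ℂ K) (y : ℕ → K)
    (h : ∀ x, Tendsto (fun k => (inner ℂ x (y k) : ℂ)) atTop (𝓝 0)) :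
    Tendsto (fun k => ‖y k‖) atTop (𝓝 0) := by
  refine squeeze_zero (fun _ => norm_nonneg _) (fun k => vec_le_sum_basis b (y k)) ?_
  simpa using tendsto_finsetSum Finset.univ fun i _ => (h (b i)).norm

section conv

variable {E : Type*} [AddCommGroup E] [Module ℂ E] [FiniteDimensional ℂ E] [CompleteSpace H]
  {m : ℕ} (u : ℕ → E →ₗ[ℂ] H) (κ : E →ₗ[ℂ] EuclideanSpace ℂ (Fin m))
  (hlim : ∀ p q : E, Tendsto (fun k => (inner ℂ (u k p) (u k q) : ℂ)) atTop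
        (𝓝 (inner ℂ (κ p) (κ q))))
  (σ : EuclideanSpace ℂ (Fin m) →ₗ[ℂ] E)
  (P : EuclideanSpace ℂ (Fin m) →L[ℂ] EuclideanSpace ℂ (Fin m))
  (hP1 : ‖P‖ ≤ 1) (hPs : ∀ x y, (inner ℂ (P x) y : ℂ) = inner ℂ x (P y))
  (hPP : ∀ x, P (P x) = P x) (hσ : ∀ x, κ (σ x) = P x)

include hlim in
omit [FiniteDimensional ℂ E] [CompleteSpace H] in
theorem lim_norm (e : E) : Tendsto (fun k => ‖u k e‖) atTop (𝓝 ‖κ e‖) := by
  have h1 := hlim e e
  have h2 := (Complex.continuous_re.tendsto _).comp h1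
  have h3 := (Real.continuous_sqrt.tendsto _).comp h2
  rw [norm_eq_sqrt_re_inner (𝕜 := ℂ) (κ e)]
  refine h3.congr fun k => ?_
  exact (norm_eq_sqrt_re_inner (𝕜 := ℂ) (u k e)).symm

/-- the operators -/
noncomputable def UU (k : ℕ) : EuclideanSpace ℂ (Fin m) →L[ℂ] H :=
  LinearMap.toContinuousLinearMap (u k ∘ₗ σ)

omit [FiniteDimensional ℂ E] [CompleteSpace H] in
theorem UU_apply (k : ℕ) (x : EuclideanSpace ℂ (Fin m)) : UU u σ k x = u k (σ x) := rfl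

include hlim hPs hσ in
omit [FiniteDimensional ℂ E] in
theorem adj_tendsto (e : E) :
    Tendsto (fun k => ‖ContinuousLinearMap.adjoint (UU u σ k) (u k e) - P (κ e)‖) atTop
      (𝓝 0) := by
  refine tendsto_vec (EuclideanSpace.basisFun (Fin m) ℂ) _ fun x => ?_
  have h1 : ∀ k, (inner ℂ x (ContinuousLinearMap.adjoint (UU u σ k) (u k e) - P (κ e)) : ℂ)
      = inner ℂ (u k (σ x)) (u k e) - inner ℂ (κ (σ x)) (κ e) := by
    intro k
    rw [inner_sub_right, ContinuousLinearMap.adjoint_inner_right, UU_apply, ← hPs, hσ]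
  simp only [h1]
  have := (hlim (σ x) e).sub_const (inner ℂ (κ (σ x)) (κ e))
  simpa using this

include hlim hPs hPP hσ hP1 in
theorem UU_norm (τ : ℝ) (hτ : 0 < τ) : ∀ᶠ k in atTop, ‖UU u σ k‖ ≤ 1 + τ := by
  have h1 : Tendsto (fun k => ‖ContinuousLinearMap.adjoint (UU u σ k) ∘L UU u σ k - P‖) atTop
      (𝓝 0) := by
    refine tendsto_op (EuclideanSpace.basisFun (Fin m) ℂ) _ fun x => ?_
    refine (adj_tendsto u κ hlim σ P hPs hσ (σ x)).congr fun k => ?_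
    rw [hσ, hPP]
    rfl
  filter_upwards [h1.eventually_le_const hτ] with k hk
  have h2 : ‖UU u σ k‖ * ‖UU u σ k‖ ≤ 1 + τ := by
    rw [← ContinuousLinearMap.norm_adjoint_comp_self]
    calc ‖ContinuousLinearMap.adjoint (UU u σ k) ∘L UU u σ k‖
        = ‖P + (ContinuousLinearMap.adjoint (UU u σ k) ∘L UU u σ k - P)‖ := by
          congr 1; abel
      _ ≤ ‖P‖ + ‖ContinuousLinearMap.adjoint (UU u σ k) ∘L UU u σ k - P‖ := norm_add_le _ _
      _ ≤ 1 + τ := add_le_add hP1 hk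
  nlinarith [norm_nonneg (UU u σ k)]

include hlim in
theorem null_tendsto (e : E) (he : κ e = 0) : Tendsto (fun k => ‖u k e‖) atTop (𝓝 0) := by
  have := lim_norm u κ hlim e
  rwa [he, norm_zero] at this

include hlim in
theorem null_op (S : ℕ → EuclideanSpace ℂ (Fin m) →L[ℂ] H)
    (T : EuclideanSpace ℂ (Fin m) →ₗ[ℂ] E) (hT : ∀ x, κ (T x) = 0)
    (hS : ∀ k x, S k x = u k (T x)) : Tendsto (fun k => ‖S k‖) atTop (𝓝 0) := by
  refine tendsto_op (EuclideanSpace.basisFun (Fin m) ℂ) _ fun x => ?_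
  simp only [hS]
  exact null_tendsto u κ hlim _ (hT x)

end conv

section assemble

variable [CompleteSpace H] {K : Type*} [NormedAddCommGroup K] [InnerProductSpace ℂ K]
  [CompleteSpace K]

open ContinuousLinearMap in
theorem comm_bound (g : H →L[ℂ] H) (g' What : K →L[ℂ] K) (Ul Ur : K →L[ℂ] H)
    (hg : adjoint g = g) (hg' : adjoint g' = g') (hW : adjoint What = What)
    (τ δ ρ : ℝ) (hτ : 0 < τ) (hδ : ‖g' ∘L What - What ∘L g'‖ ≤ δ)
    (hUl : ‖Ul‖ ≤ 1 + τ) (hUr : ‖Ur‖ ≤ 1 + τ)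
    (hRl : ‖g ∘L Ul ∘L What - Ul ∘L g' ∘L What‖ ≤ ρ)
    (hRr : ‖g ∘L Ur ∘L What - Ur ∘L g' ∘L What‖ ≤ ρ) :
    ‖g * ((((1 + τ) ^ 2)⁻¹ : ℝ) • (Ul ∘L What ∘L adjoint Ur)) -
      ((((1 + τ) ^ 2)⁻¹ : ℝ) • (Ul ∘L What ∘L adjoint Ur)) * g‖ ≤ δ + 2 * ρ := by
  have hδ0 : 0 ≤ δ := (norm_nonneg _).trans hδ
  have hρ0 : 0 ≤ ρ := (norm_nonneg _).trans hRl
  have hadj : ‖adjoint (g ∘L Ur ∘L What - Ur ∘L g' ∘L What)‖ ≤ ρ := by
    rwa [LinearIsometryEquiv.norm_map]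
  have key : g * (Ul ∘L What ∘L adjoint Ur) - (Ul ∘L What ∘L adjoint Ur) * g =
      Ul ∘L (g' ∘L What - What ∘L g') ∘L adjoint Ur +
      ((g ∘L Ul ∘L What - Ul ∘L g' ∘L What) ∘L adjoint Ur -
        Ul ∘L adjoint (g ∘L Ur ∘L What - Ur ∘L g' ∘L What)) := by
    have h1 : adjoint (g ∘L Ur ∘L What - Ur ∘L g' ∘L What) =
        What ∘L adjoint Ur ∘L g - What ∘L g' ∘L adjoint Ur := by
      rw [map_sub, adjoint_comp, adjoint_comp, adjoint_comp, adjoint_comp, hg, hg', hW]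
      rfl
    rw [h1]
    ext x
    simp only [FunLike.coe_sub, Pi.sub_apply, coe_comp, Function.comp_apply, add_apply,
      map_sub]
    abel
  rw [mul_smul_comm, smul_mul_assoc, ← smul_sub, norm_smul, key]
  have hc : ‖(((1 + τ) ^ 2)⁻¹ : ℝ)‖ = ((1 + τ) ^ 2)⁻¹ := by
    rw [Real.norm_of_nonneg (by positivity)]
  rw [hc]
  have hUr' : ‖adjoint Ur‖ ≤ 1 + τ := by rwa [LinearIsometryEquiv.norm_map]
  have b1 : ‖Ul ∘L (g' ∘L What - What ∘L g') ∘L adjoint Ur‖ ≤ (1 + τ) * (δ * (1 + τ)) := by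
    refine (opNorm_comp_le _ _).trans (mul_le_mul hUl ?_ (norm_nonneg _) (by positivity))
    exact (opNorm_comp_le _ _).trans (mul_le_mul hδ hUr' (norm_nonneg _) hδ0)
  have b2 : ‖(g ∘L Ul ∘L What - Ul ∘L g' ∘L What) ∘L adjoint Ur‖ ≤ ρ * (1 + τ) :=
    (opNorm_comp_le _ _).trans (mul_le_mul hRl hUr' (norm_nonneg _) hρ0)
  have b3 : ‖Ul ∘L adjoint (g ∘L Ur ∘L What - Ur ∘L g' ∘L What)‖ ≤ (1 + τ) * ρ :=
    (opNorm_comp_le _ _).trans (mul_le_mul hUl hadj (norm_nonneg _) (by positivity))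
  have b4 : ‖Ul ∘L (g' ∘L What - What ∘L g') ∘L adjoint Ur +
      ((g ∘L Ul ∘L What - Ul ∘L g' ∘L What) ∘L adjoint Ur -
        Ul ∘L adjoint (g ∘L Ur ∘L What - Ur ∘L g' ∘L What))‖ ≤
      (1 + τ) * (δ * (1 + τ)) + (ρ * (1 + τ) + (1 + τ) * ρ) :=
    (norm_add_le _ _).trans (add_le_add b1 ((norm_sub_le _ _).trans (add_le_add b2 b3)))
  have hpos : 0 < (1 + τ) ^ 2 := by positivity
  rw [inv_mul_le_iff₀ hpos]
  refine b4.trans ?_
  nlinarith [mul_nonneg hτ.le hρ0, mul_nonneg (mul_nonneg hτ.le hτ.le) hρ0]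

open ContinuousLinearMap in
theorem norm_bound (What : K →L[ℂ] K) (Ul Ur : K →L[ℂ] H) (hW1 : ‖What‖ ≤ 1)
    (τ : ℝ) (hτ : 0 < τ) (hUl : ‖Ul‖ ≤ 1 + τ) (hUr : ‖Ur‖ ≤ 1 + τ) :
    ‖((((1 + τ) ^ 2)⁻¹ : ℝ) • (Ul ∘L What ∘L adjoint Ur))‖ ≤ 1 := by
  have hUr' : ‖adjoint Ur‖ ≤ 1 + τ := by rwa [LinearIsometryEquiv.norm_map]
  rw [norm_smul, Real.norm_of_nonneg (by positivity)]
  have b1 : ‖Ul ∘L What ∘L adjoint Ur‖ ≤ (1 + τ) * (1 * (1 + τ)) := by
    refine (opNorm_comp_le _ _).trans (mul_le_mul hUl ?_ (norm_nonneg _) (by positivity))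
    exact (opNorm_comp_le _ _).trans (mul_le_mul hW1 hUr' (norm_nonneg _) (by positivity))
  have hpos : 0 < (1 + τ) ^ 2 := by positivity
  rw [inv_mul_le_iff₀ hpos]
  nlinarith

open ContinuousLinearMap in
theorem reach_bound (What : K →L[ℂ] K) (Ul Ur : K →L[ℂ] H) (hW1 : ‖What‖ ≤ 1)
    (τ : ℝ) (hτ : 0 < τ) (hUl : ‖Ul‖ ≤ 1 + τ) (e : K) (he : What e = e)
    (he1 : ‖e‖ ≤ 1) (ξ ζ : H) (ρ : ℝ) (h1 : ‖adjoint Ur ξ - e‖ ≤ ρ) (h2 : ‖Ul e - ζ‖ ≤ ρ) :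
    ‖((((1 + τ) ^ 2)⁻¹ : ℝ) • (Ul ∘L What ∘L adjoint Ur)) ξ - ζ‖ ≤ 2 * ρ + 2 * τ := by
  have hρ0 : 0 ≤ ρ := (norm_nonneg _).trans h1
  have hpos : 0 < (1 + τ) ^ 2 := by positivity
  set c : ℝ := ((1 + τ) ^ 2)⁻¹ with hc
  have hc1 : c * (1 + τ) ≤ 1 := by
    rw [hc, inv_mul_le_iff₀ hpos]; nlinarith
  have hc0 : 0 ≤ c := by positivity
  have hcle : c ≤ 1 := by nlinarith
  have hc2 : (1 - c) * (1 + τ) ≤ 2 * τ := by
    have : c * (1 + τ) ^ 2 = 1 := by rw [hc]; field_simp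
    nlinarith [mul_nonneg hc0 hτ.le, mul_nonneg (mul_nonneg hc0 hτ.le) hτ.le]
  have key : (c • (Ul ∘L What ∘L adjoint Ur)) ξ - ζ =
      c • Ul (What (adjoint Ur ξ - e)) + (-((1 - c) • Ul e) + (Ul e - ζ)) := by
    simp only [FunLike.coe_smul, Pi.smul_apply, coe_comp, Function.comp_apply, map_sub, he,
      smul_sub, sub_smul, one_smul]
    abel
  rw [key]
  have b1 : ‖c • Ul (What (adjoint Ur ξ - e))‖ ≤ ρ := by
    rw [norm_smul, Real.norm_of_nonneg hc0]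
    have : ‖Ul (What (adjoint Ur ξ - e))‖ ≤ (1 + τ) * ρ := by
      refine (le_opNorm _ _).trans (mul_le_mul hUl ?_ (norm_nonneg _) (by positivity))
      refine (le_opNorm _ _).trans ?_
      calc ‖What‖ * ‖adjoint Ur ξ - e‖ ≤ 1 * ρ :=
            mul_le_mul hW1 h1 (norm_nonneg _) zero_le_one
        _ = ρ := one_mul _
    calc c * ‖Ul (What (adjoint Ur ξ - e))‖ ≤ c * ((1 + τ) * ρ) :=
          mul_le_mul_of_nonneg_left this hc0
      _ = (c * (1 + τ)) * ρ := by ring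
      _ ≤ 1 * ρ := mul_le_mul_of_nonneg_right hc1 hρ0
      _ = ρ := one_mul _
  have b2 : ‖-((1 - c) • Ul e)‖ ≤ 2 * τ := by
    rw [norm_neg, norm_smul, Real.norm_of_nonneg (by linarith)]
    have : ‖Ul e‖ ≤ (1 + τ) * 1 :=
      (le_opNorm _ _).trans (mul_le_mul hUl he1 (norm_nonneg _) (by positivity))
    calc (1 - c) * ‖Ul e‖ ≤ (1 - c) * ((1 + τ) * 1) :=
          mul_le_mul_of_nonneg_left this (by linarith)
      _ ≤ 2 * τ := by linarith
  calc _ ≤ ‖c • Ul (What (adjoint Ur ξ - e))‖ + ‖-((1 - c) • Ul e) + (Ul e - ζ)‖ :=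
        norm_add_le _ _
    _ ≤ ρ + (2 * τ + ρ) := add_le_add b1 ((norm_add_le _ _).trans (add_le_add b2 h2))
    _ = 2 * ρ + 2 * τ := by ring

end assemble

section core

open ContinuousLinearMap

theorem Frame.core [CompleteSpace H] (F : Frame H) (n D : ℕ) (hD : 0 < D) (ζ : ℕ → H) {m : ℕ}
    (κ : F.PP n (D + 1) →ₗ[ℂ] EuclideanSpace ℂ (Fin m))
    (hlim : ∀ p q : F.PP n (D + 1), Tendsto (fun k =>
      (inner ℂ ((p : H →L[ℂ] H) (ζ k)) ((q : H →L[ℂ] H) (ζ k)) : ℂ)) atTop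
        (𝓝 (inner ℂ (κ p) (κ q)))) :
    ∃ (s : EuclideanSpace ℂ (Fin m) →ₗ[ℂ] F.PP n D)
      (P What : EuclideanSpace ℂ (Fin m) →L[ℂ] EuclideanSpace ℂ (Fin m)),
      ‖P‖ ≤ 1 ∧ (∀ x y, (inner ℂ (P x) y : ℂ) = inner ℂ x (P y)) ∧ (∀ x, P (P x) = P x) ∧
      (∀ x, κ (Submodule.inclusion (F.PP_mono n (Nat.le_succ D)) (s x)) = P x) ∧
      ‖What‖ ≤ 1 ∧ adjoint What = What ∧
      What (κ ⟨1, F.one_mem_PP n _⟩) = κ ⟨1, F.one_mem_PP n _⟩ ∧
      P (κ ⟨1, F.one_mem_PP n _⟩) = κ ⟨1, F.one_mem_PP n _⟩ ∧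
      ∀ i ≤ n, ∃ (g' : EuclideanSpace ℂ (Fin m) →L[ℂ] EuclideanSpace ℂ (Fin m))
        (T : EuclideanSpace ℂ (Fin m) →ₗ[ℂ] F.PP n (D + 1)),
        adjoint g' = g' ∧ ‖g' ∘L What - What ∘L g'‖ ≤ 2 * ‖F.g i‖ / D ∧
        (∀ x, κ (T x) = 0) ∧
        ∀ x, (T x : H →L[ℂ] H) = F.g i * (s (What x) : H →L[ℂ] H) -
          (s (g' (What x)) : H →L[ℂ] H) := by
  classical
  have := F.PP_fin n (D + 1)
  have := F.PP_fin n D
  let u : ℕ → F.PP n (D + 1) →ₗ[ℂ] H := fun k =>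
    ((ContinuousLinearMap.apply ℂ H (ζ k) : (H →L[ℂ] H) →L[ℂ] H) : (H →L[ℂ] H) →ₗ[ℂ] H) ∘ₗ
      (F.PP n (D + 1)).subtype
  have hu : ∀ k e, u k e = (e : H →L[ℂ] H) (ζ k) := fun _ _ => rfl
  have hlim' : ∀ p q : F.PP n (D + 1), Tendsto (fun k => (inner ℂ (u k p) (u k q) : ℂ)) atTop
        (𝓝 (inner ℂ (κ p) (κ q))) := hlim
  let ι : F.PP n D →ₗ[ℂ] F.PP n (D + 1) :=
    Submodule.inclusion (F.PP_mono n (Nat.le_succ D))
  let Kk : ℕ → Submodule ℂ (EuclideanSpace ℂ (Fin m)) := fun k =>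
    Submodule.map κ (Submodule.comap (F.PP n (D + 1)).subtype (F.PP n k))
  have hKmono : ∀ {j k : ℕ}, j ≤ k → Kk j ≤ Kk k := fun {j k} h =>
    Submodule.map_mono (Submodule.comap_mono (F.PP_mono n h))
  have hKmem : ∀ (k : ℕ) (e : F.PP n (D + 1)), (e : H →L[ℂ] H) ∈ F.PP n k → κ e ∈ Kk k :=
    fun k e he => Submodule.mem_map_of_mem he
  have hcod : ∀ e : F.PP n D, (κ ∘ₗ ι) e ∈ Kk D := fun e => hKmem D (ι e) e.2
  obtain ⟨s0, hs0⟩ := LinearMap.exists_rightInverse_of_surjective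
    (LinearMap.codRestrict (Kk D) (κ ∘ₗ ι) hcod) (by
      rw [LinearMap.range_eq_top]
      rintro ⟨y, hy⟩
      obtain ⟨e, he, rfl⟩ := hy
      exact ⟨⟨e, he⟩, rfl⟩)
  let p : ℕ → (EuclideanSpace ℂ (Fin m) →L[ℂ] EuclideanSpace ℂ (Fin m)) :=
    fun k => (Kk k).starProjection
  have hpmem : ∀ k x, p k x ∈ Kk k := fun k x => Submodule.starProjection_apply_mem _ _
  have hpself : ∀ k x, x ∈ Kk k → p k x = x := fun k x hx =>
    Submodule.starProjection_eq_self_iff.2 hx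
  have hpsa : ∀ k x y, (inner ℂ (p k x) y : ℂ) = inner ℂ x (p k y) := fun k x y =>
    Submodule.inner_starProjection_left_eq_right _ _ _
  have hpnorm : ∀ k, ‖p k‖ ≤ 1 := fun k => Submodule.starProjection_norm_le _
  have hpmul : ∀ k l, p k * p l = p (min k l) := by
    intro k l
    rcases le_total k l with h | h
    · rw [min_eq_left h]
      exact Submodule.starProjection_comp_starProjection_of_le (hKmono h)
    · rw [min_eq_right h]
      ext1 x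
      exact hpself k _ (hKmono h (hpmem l x))
  let s : EuclideanSpace ℂ (Fin m) →ₗ[ℂ] F.PP n D :=
    s0 ∘ₗ ((Kk D).orthogonalProjectionOnto : EuclideanSpace ℂ (Fin m) →ₗ[ℂ] Kk D)
  have hs : ∀ x, κ (ι (s x)) = p D x := by
    intro x
    have := LinearMap.congr_fun hs0 ((Kk D).orthogonalProjectionOnto x)
    exact congrArg Subtype.val this
  set What : EuclideanSpace ℂ (Fin m) →L[ℂ] EuclideanSpace ℂ (Fin m) :=
    (D : ℂ)⁻¹ • ∑ k ∈ Finset.range D, p k with hWhat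
  have hWsa : ∀ x y, (inner ℂ (What x) y : ℂ) = inner ℂ x (What y) := by
    intro x y
    rw [hWhat]
    simp only [FunLike.coe_smul, Pi.smul_apply, inner_smul_left, inner_smul_right,
      sum_apply, sum_inner, inner_sum, hpsa]
    simp
  have hone : κ ⟨1, F.one_mem_PP n _⟩ ∈ Kk 0 := hKmem 0 _ (F.one_mem_PP n 0)
  have hDne : (D : ℂ) ≠ 0 := by exact_mod_cast hD.ne'
  refine ⟨s, p D, What, hpnorm D, hpsa D, fun x => hpself D _ (hpmem D x), hs, ?_, ?_, ?_, ?_, ?_⟩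
  · exact (slow_avg D hD p 0 hpsa hpmul (by simp) (by simp)).1
  · exact ((ContinuousLinearMap.eq_adjoint_iff What What).2 hWsa).symm
  · rw [hWhat]
    simp only [FunLike.coe_smul, Pi.smul_apply, sum_apply]
    rw [Finset.sum_congr rfl fun k _ => hpself k _ (hKmono (Nat.zero_le k) hone)]
    rw [Finset.sum_const, Finset.card_range, ← Nat.cast_smul_eq_nsmul ℂ, smul_smul,
      inv_mul_cancel₀ hDne, one_smul]
  · exact hpself D _ (hKmono (Nat.zero_le D) hone)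
  · intro i hi
    let L : F.PP n D →ₗ[ℂ] F.PP n (D + 1) :=
      (LinearMap.mulLeft ℂ (F.g i)).restrict (fun q hq => F.mul_mem_PP n D i hi q hq)
    have hL : ∀ e, (L e : H →L[ℂ] H) = F.g i * (e : H →L[ℂ] H) := fun _ => rfl
    have hnull : ∀ e, ‖κ (L e)‖ ≤ ‖F.g i‖ * ‖κ (ι e)‖ := by
      intro e
      refine le_of_tendsto_of_tendsto' (lim_norm u κ hlim' (L e))
        ((lim_norm u κ hlim' (ι e)).const_mul ‖F.g i‖) fun k => ?_
      exact (F.g i).le_opNorm _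
    have hsymm : ∀ e e', (inner ℂ (κ (L e)) (κ (ι e')) : ℂ) = inner ℂ (κ (ι e)) (κ (L e')) := by
      intro e e'
      refine tendsto_nhds_unique (hlim (L e) (ι e')) ((hlim (ι e) (L e')).congr fun k => ?_)
      exact (F.g_sa i _ _).symm
    let T0 : EuclideanSpace ℂ (Fin m) →ₗ[ℂ] EuclideanSpace ℂ (Fin m) := κ ∘ₗ L ∘ₗ s
    let g' : EuclideanSpace ℂ (Fin m) →L[ℂ] EuclideanSpace ℂ (Fin m) :=
      p D ∘L LinearMap.toContinuousLinearMap T0
    have hg' : ∀ x, g' x = p D (κ (L (s x))) := fun _ => rfl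
    have hgsa : ∀ x y, (inner ℂ (g' x) y : ℂ) = inner ℂ x (g' y) := by
      intro x y
      rw [hg', hg', hpsa, ← hs, hsymm, hs, hpsa]
    have hgn : ‖g'‖ ≤ ‖F.g i‖ := by
      refine ContinuousLinearMap.opNorm_le_bound _ (norm_nonneg _) fun x => ?_
      rw [hg']
      calc ‖p D (κ (L (s x)))‖ ≤ 1 * ‖κ (L (s x))‖ := (p D).le_of_opNorm_le (hpnorm D) _
        _ = ‖κ (L (s x))‖ := one_mul _
        _ ≤ ‖F.g i‖ * ‖κ (ι (s x))‖ := hnull _
        _ ≤ ‖F.g i‖ * ‖x‖ := by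
            refine mul_le_mul_of_nonneg_left ?_ (norm_nonneg _)
            rw [hs]
            simpa using (p D).le_of_opNorm_le (hpnorm D) x
    have hT : ∀ k, k < D → ∀ y ∈ Kk k, κ (L (s y)) ∈ Kk (k + 1) := by
      intro k hk y hy
      obtain ⟨e, he, hey⟩ := hy
      have he2 : (e : H →L[ℂ] H) ∈ F.PP n D := F.PP_mono n hk.le he
      have h1 : κ (ι (s y - ⟨e, he2⟩)) = 0 := by
        rw [map_sub, map_sub, hs, hpself D y (hKmono hk.le ⟨e, he, hey⟩), sub_eq_zero]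
        exact hey.symm
      have h2 : κ (L (s y - ⟨e, he2⟩)) = 0 := by
        have := hnull (s y - ⟨e, he2⟩)
        rw [h1, norm_zero, mul_zero] at this
        exact norm_le_zero_iff.1 this
      rw [map_sub, map_sub, sub_eq_zero] at h2
      rw [h2]
      exact hKmem _ _ (F.mul_mem_PP n k i hi _ he)
    have hprop : ∀ k < D, p (k + 1) * (g' * p k) = g' * p k := by
      intro k hk
      ext1 x
      refine hpself (k + 1) _ ?_
      change g' (p k x) ∈ Kk (k + 1)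
      rw [hg', hpself D _ (hKmono (Nat.succ_le_of_lt hk) (hT k hk _ (hpmem k x)))]
      exact hT k hk _ (hpmem k x)
    have hWmem : ∀ x, What x ∈ Kk (D - 1) := by
      intro x
      rw [hWhat]
      simp only [FunLike.coe_smul, Pi.smul_apply, sum_apply]
      refine Submodule.smul_mem _ _ (Submodule.sum_mem _ fun k hk => ?_)
      exact hKmono (Nat.le_sub_one_of_lt (Finset.mem_range.1 hk)) (hpmem k x)
    refine ⟨g', L ∘ₗ s ∘ₗ (What : EuclideanSpace ℂ (Fin m) →ₗ[ℂ] EuclideanSpace ℂ (Fin m)) -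
      ι ∘ₗ s ∘ₗ ((g' ∘L What : EuclideanSpace ℂ (Fin m) →L[ℂ] EuclideanSpace ℂ (Fin m)) :
        EuclideanSpace ℂ (Fin m) →ₗ[ℂ] EuclideanSpace ℂ (Fin m)), ?_, ?_, ?_, ?_⟩
    · exact ((ContinuousLinearMap.eq_adjoint_iff g' g').2 hgsa).symm
    · refine (slow_avg D hD p g' hpsa hpmul hgsa hprop).2.trans ?_
      gcongr
    · intro x
      have h1 : κ (L (s (What x))) ∈ Kk D := by
        have := hT (D - 1) (by omega) _ (hWmem x)
        rwa [Nat.sub_add_cancel hD] at this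
      change κ (L (s (What x)) - ι (s (g' (What x)))) = 0
      rw [map_sub, hs, hg', hpself D _ h1, hpself D _ h1, sub_self]
    · intro x
      rfl

end core

open ContinuousLinearMap in
theorem Frame.q_of_le (F : Frame H) {a b : ℕ} (hab : a ≤ b) {x : H} (hx : F.q a x = x) :
    F.q b x = x := by
  have h1 := congrArg (fun T : H →L[ℂ] H => T x) (F.q_mul b a)
  simp only [min_eq_right hab] at h1
  have h2 : F.q b (F.q a x) = F.q a x := h1
  rwa [hx] at h2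

open ContinuousLinearMap in
theorem Frame.covering [CompleteSpace H] (F : Frame H) (n : ℕ) (ε θ : ℝ) (hε : 0 < ε)
    (hθ : 0 < θ) :
    ∃ r, ∀ ζ : H, ‖ζ‖ ≤ 1 → (∃ M, F.q M ζ = ζ) →
      ∃ (ξ : H) (W : H →L[ℂ] H), F.q r ξ = ξ ∧ ‖ξ‖ ≤ 1 ∧ ‖W‖ ≤ 1 ∧
        (∃ M, F.q M * W * F.q M = W) ∧ (∀ i ≤ n, ‖F.g i * W - W * F.g i‖ ≤ ε) ∧
        ‖W ξ - ζ‖ ≤ θ := by
  classical
  by_contra hcon
  push Not at hcon
  choose ζ hζ1 hζM hbad using hcon
  choose M hM using hζM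
  obtain ⟨D, hD0, hD⟩ : ∃ D : ℕ, 0 < D ∧ ∀ i ≤ n, 2 * ‖F.g i‖ / D ≤ ε / 2 := by
    obtain ⟨D, hD⟩ := exists_nat_gt (∑ i ∈ Finset.range (n + 1), 2 * ‖F.g i‖ / (ε / 2))
    have hs : 0 ≤ ∑ i ∈ Finset.range (n + 1), 2 * ‖F.g i‖ / (ε / 2) :=
      Finset.sum_nonneg fun _ _ => by positivity
    have hDpos : (0 : ℝ) < D := hs.trans_lt hD
    refine ⟨D, by exact_mod_cast hDpos, fun i hi => ?_⟩
    have h1 : 2 * ‖F.g i‖ / (ε / 2) ≤ ∑ i ∈ Finset.range (n + 1), 2 * ‖F.g i‖ / (ε / 2) :=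
      Finset.single_le_sum (f := fun i => 2 * ‖F.g i‖ / (ε / 2)) (fun _ _ => by positivity)
        (Finset.mem_range.2 (by omega))
    rw [div_le_iff₀ hDpos]
    have := (div_le_iff₀ (by positivity : 0 < ε / 2)).1 (h1.trans hD.le)
    linarith
  have := F.PP_fin n (D + 1)
  let u0 : ℕ → F.PP n (D + 1) →ₗ[ℂ] H := fun k =>
    ((ContinuousLinearMap.apply ℂ H (ζ k) : (H →L[ℂ] H) →L[ℂ] H) : (H →L[ℂ] H) →ₗ[ℂ] H) ∘ₗ
      (F.PP n (D + 1)).subtype
  have hu0 : ∀ k e, u0 k e = (e : H →L[ℂ] H) (ζ k) := fun _ _ => rfl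
  obtain ⟨m, κ, φ, hφ, hlim⟩ := exists_gram_limit u0 (fun e => ‖(e : H →L[ℂ] H)‖)
    (fun k e => by
      rw [hu0]
      refine ((e : H →L[ℂ] H).le_opNorm _).trans ?_
      calc ‖(e : H →L[ℂ] H)‖ * ‖ζ k‖ ≤ ‖(e : H →L[ℂ] H)‖ * 1 :=
            mul_le_mul_of_nonneg_left (hζ1 k) (norm_nonneg _)
        _ = _ := mul_one _)
  obtain ⟨s, P, What, hP1, hPs, hPP, hs, hW1, hWa, hWone, hPone, hrest⟩ :=
    F.core n D hD0 (ζ ∘ φ) κ hlim
  let u : ℕ → F.PP n (D + 1) →ₗ[ℂ] H := fun k => u0 (φ k)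
  have hu : ∀ k e, u k e = (e : H →L[ℂ] H) (ζ (φ k)) := fun _ _ => rfl
  have hlim' : ∀ p q : F.PP n (D + 1), Tendsto (fun k => (inner ℂ (u k p) (u k q) : ℂ)) atTop
        (𝓝 (inner ℂ (κ p) (κ q))) := hlim
  let σ : EuclideanSpace ℂ (Fin m) →ₗ[ℂ] F.PP n (D + 1) :=
    Submodule.inclusion (F.PP_mono n (Nat.le_succ D)) ∘ₗ s
  have hσ : ∀ x, κ (σ x) = P x := hs
  let one : F.PP n (D + 1) := ⟨1, F.one_mem_PP n _⟩
  have hone : ∀ k, u k one = ζ (φ k) := fun _ => rfl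
  let U : ℕ → EuclideanSpace ℂ (Fin m) →L[ℂ] H := UU u σ
  have hU : ∀ k x, U k x = (s x : H →L[ℂ] H) (ζ (φ k)) := fun _ _ => rfl
  obtain ⟨τ, hτ0, hτ⟩ : ∃ τ : ℝ, 0 < τ ∧ τ ≤ θ / 4 := ⟨θ / 4, by positivity, le_rfl⟩
  obtain ⟨ρ, hρ0, hρ1, hρ2⟩ : ∃ ρ : ℝ, 0 < ρ ∧ ρ ≤ θ / 4 ∧ ρ ≤ ε / 4 :=
    ⟨min (θ / 4) (ε / 4), by positivity, min_le_left _ _, min_le_right _ _⟩
  have ev1 : ∀ᶠ k in atTop, ‖U k‖ ≤ 1 + τ := UU_norm u κ hlim' σ P hP1 hPs hPP hσ τ hτ0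
  have ev2 : ∀ᶠ k in atTop, ‖adjoint (U k) (ζ (φ k)) - κ one‖ ≤ ρ := by
    have h := adj_tendsto u κ hlim' σ P hPs hσ one
    have h2 : P (κ one) = κ one := hPone
    rw [h2] at h
    exact h.eventually_le_const hρ0
  have ev3 : ∀ᶠ k in atTop, ‖U k (κ one) - ζ (φ k)‖ ≤ ρ := by
    have h := null_tendsto u κ hlim' (σ (κ one) - one) (by
      rw [map_sub, hσ, sub_eq_zero]; exact hPone)
    refine (h.eventually_le_const hρ0).mono fun k hk => ?_
    rw [map_sub] at hk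
    exact hk
  choose! g' T hg' hcomm hT0 hT using hrest
  have ev4 : ∀ᶠ k in atTop, ∀ i ∈ Finset.range (n + 1),
      ‖F.g i ∘L U k ∘L What - U k ∘L g' i ∘L What‖ ≤ ρ := by
    rw [Filter.eventually_all_finset]
    intro i hi
    have hi' : i ≤ n := Nat.lt_succ_iff.1 (Finset.mem_range.1 hi)
    have h := null_op u κ hlim' (fun k => F.g i ∘L U k ∘L What - U k ∘L g' i ∘L What)
      (T i) (hT0 i hi') (fun k x => by
        rw [hu, hT i hi']
        rfl)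
    exact h.eventually_le_const hρ0
  have he1 : ‖κ one‖ ≤ 1 := le_of_tendsto' (lim_norm u κ hlim' one) fun k => hζ1 _
  have evall := ev1.and (ev2.and (ev3.and ev4))
  obtain ⟨k0, a1, a2, a3, a4⟩ := evall.exists
  obtain ⟨k1, ⟨b1, b2, b3, b4⟩, b5⟩ := (evall.and (eventually_ge_atTop (M (φ k0)))).exists
  have hsupp : ∀ k N, max n (M (φ k)) + D ≤ N → ∀ x, F.q N (U k x) = U k x := by
    intro k N hN x
    refine F.q_of_le hN ?_
    rw [hU]
    exact F.PP_apply n D _ (le_max_left _ _) (ζ (φ k)) (F.q_of_le (le_max_right _ _) (hM _))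
      _ (s x).2
  have hsupp' : ∀ k N, max n (M (φ k)) + D ≤ N → ∀ x,
      adjoint (U k) (F.q N x) = adjoint (U k) x := by
    intro k N hN x
    refine ext_inner_left ℂ fun y => ?_
    rw [adjoint_inner_right, adjoint_inner_right, ← F.q_sa, hsupp k N hN]
  let W : H →L[ℂ] H := (((1 + τ) ^ 2)⁻¹ : ℝ) • (U k1 ∘L What ∘L adjoint (U k0))
  refine absurd (hbad (φ k1) (ζ (φ k0)) W ?_ (hζ1 _) ?_ ?_ ?_) (not_lt.2 ?_)
  · refine F.q_of_le ?_ (hM _)
    exact b5.trans hφ.le_apply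
  · exact norm_bound What (U k1) (U k0) hW1 τ hτ0 b1 a1
  · refine ⟨max (max n (M (φ k0)) + D) (max n (M (φ k1)) + D), ?_⟩
    ext1 x
    change F.q _ (W (F.q _ x)) = W x
    have e1 : W (F.q (max (max n (M (φ k0)) + D) (max n (M (φ k1)) + D)) x) = W x := by
      change (((1 + τ) ^ 2)⁻¹ : ℝ) • (U k1 (What (adjoint (U k0) (F.q _ x)))) =
        (((1 + τ) ^ 2)⁻¹ : ℝ) • (U k1 (What (adjoint (U k0) x)))
      rw [hsupp' k0 _ (le_max_left _ _)]
    rw [e1]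
    change F.q _ ((((1 + τ) ^ 2)⁻¹ : ℝ) • (U k1 (What (adjoint (U k0) x)))) =
      (((1 + τ) ^ 2)⁻¹ : ℝ) • (U k1 (What (adjoint (U k0) x)))
    rw [map_real_smul, hsupp k1 _ (le_max_right _ _)]
    exact (F.q _).continuous
  · intro i hi
    have hga : adjoint (F.g i) = F.g i :=
      ((ContinuousLinearMap.eq_adjoint_iff (F.g i) (F.g i)).2 (F.g_sa i)).symm
    have him : i ∈ Finset.range (n + 1) := Finset.mem_range.2 (by omega)
    refine (comm_bound (F.g i) (g' i) What (U k1) (U k0) hga (hg' i hi) hWa τ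
      (2 * ‖F.g i‖ / D) ρ hτ0 (hcomm i hi) b1 a1 (b4 i him) (a4 i him)).trans ?_
    have := hD i hi
    linarith
  · refine (reach_bound What (U k1) (U k0) hW1 τ hτ0 b1 (κ one) hWone he1
      (ζ (φ k0)) (ζ (φ k1)) ρ a2 b3).trans ?_
    linarith

end Pool.Agent.Helper509.FR
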