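import Pool.Agent.Helper509.FR.Radius
import Pool.Agent.Helper509.FR.Cover
import Pool.Agent.Helper509.FR.CommV
import Pool.Agent.Helper509.FR.Approx

namespace Pool.Agent.Helper509.FR

open Filter Topology

variable {H : Type*} [NormedAddCommGroup H] [InnerProductSpace ℂ H]
theorem Frame.q_norm_le (F : Frame H) (n : ℕ) (x : H) : ‖F.q n x‖ ≤ ‖x‖ := by
  have h1 : inner ℂ (F.q n x) (F.q n x) = inner ℂ x (F.q n x) := by
    rw [F.q_sa]
    congr 1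
    rw [← mul_apply_eq_comp, F.q_mul, min_self]
  have h2 : ‖F.q n x‖ * ‖F.q n x‖ ≤ ‖x‖ * ‖F.q n x‖ := by
    calc ‖F.q n x‖ * ‖F.q n x‖ = ‖inner ℂ (F.q n x) (F.q n x)‖ := by
          rw [inner_self_eq_norm_sq_to_K, norm_pow, RCLike.norm_ofReal, abs_norm, sq]
      _ = ‖inner ℂ x (F.q n x)‖ := by rw [h1]
      _ ≤ ‖x‖ * ‖F.q n x‖ := norm_inner_le_norm _ _
  by_cases h : ‖F.q n x‖ = 0
  · rw [h]; exact norm_nonneg _
  · have h3 : 0 < ‖F.q n x‖ := lt_of_le_of_ne (norm_nonneg _) (Ne.symm h)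
    exact le_of_mul_le_mul_right h2 h3

theorem Frame.q_opNorm_le (F : Frame H) (n : ℕ) : ‖F.q n‖ ≤ 1 :=
  ContinuousLinearMap.opNorm_le_bound _ zero_le_one fun x => by
    rw [one_mul]; exact F.q_norm_le n x

theorem Frame.data [CompleteSpace H] (F : Frame H) (n : ℕ) :
    ∃ D r : ℕ, 0 < D ∧ (∀ i ≤ n, 2 * ‖F.g i‖ / D ≤ (1 / 2 : ℝ) ^ n) ∧ n ≤ r ∧
      (∀ p ∈ F.PP n D, ‖p‖ ≤ 2 * ‖p * F.q r‖) ∧
      ∀ ζ : H, ‖ζ‖ ≤ 1 → (∃ M, F.q M ζ = ζ) → ∃ (ξ : H) (W : H →L[ℂ] H), F.q r ξ = ξ ∧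
        ‖ξ‖ ≤ 1 ∧ W ∈ F.WW n ∧ (∀ p ∈ F.PP n D, ‖p * W - W * p‖ ≤ ‖p‖ / (n + 1)) ∧
        ‖W ξ - ζ‖ ≤ 1 / (n + 1) := by
  -- choose D
  have hpow : (0 : ℝ) < (1 / 2 : ℝ) ^ n := by positivity
  have hD : ∃ D : ℕ, 0 < D ∧ ∀ i ≤ n, 2 * ‖F.g i‖ / D ≤ (1 / 2 : ℝ) ^ n := by
    obtain ⟨D, hD⟩ := exists_nat_gt ((∑ i ∈ Finset.range (n + 1), 2 * ‖F.g i‖) / (1 / 2 : ℝ) ^ n)
    have hs0 : 0 ≤ (∑ i ∈ Finset.range (n + 1), 2 * ‖F.g i‖) / (1 / 2 : ℝ) ^ n := by positivity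
    have hD0 : (0 : ℝ) < D := lt_of_le_of_lt hs0 hD
    refine ⟨D, by exact_mod_cast hD0, fun i hi => ?_⟩
    rw [div_le_iff₀ hD0]
    rw [div_lt_iff₀ hpow] at hD
    have h1 : 2 * ‖F.g i‖ ≤ ∑ i ∈ Finset.range (n + 1), 2 * ‖F.g i‖ :=
      Finset.single_le_sum (f := fun i => 2 * ‖F.g i‖) (fun j _ => by positivity)
        (Finset.mem_range.2 (by omega))
    linarith [mul_comm (D : ℝ) ((1 / 2 : ℝ) ^ n)]
  obtain ⟨D, hD0, hDg⟩ := hD
  obtain ⟨r1, hr1⟩ := F.exists_radius (F.PP n D) (F.PP_fin n D)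
  obtain ⟨C, hC0, hC⟩ := F.PP_commutator n D
  have hn1 : (0 : ℝ) < (n : ℝ) + 1 := by positivity
  have hε : (0 : ℝ) < min ((1 / 2 : ℝ) ^ n) (1 / ((n + 1) * (C + 1))) := by
    apply lt_min hpow
    positivity
  obtain ⟨r2, hr2⟩ := F.covering n _ (1 / ((n : ℝ) + 1)) hε (by positivity)
  refine ⟨D, max (max r1 r2) n, hD0, hDg, le_max_right _ _, ?_, ?_⟩
  · intro p hp
    have h1 := hr1 p hp
    have h2 : ‖p * F.q r1‖ ≤ ‖p * F.q (max (max r1 r2) n)‖ := by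
      have h3 : p * F.q r1 = p * F.q (max (max r1 r2) n) * F.q r1 := by
        rw [mul_assoc, F.q_mul, min_eq_right]
        exact (le_max_left _ _).trans (le_max_left _ _)
      rw [h3]
      calc ‖p * F.q (max (max r1 r2) n) * F.q r1‖ ≤
          ‖p * F.q (max (max r1 r2) n)‖ * ‖F.q r1‖ := norm_mul_le _ _
        _ ≤ ‖p * F.q (max (max r1 r2) n)‖ * 1 :=
            mul_le_mul_of_nonneg_left (F.q_opNorm_le _) (norm_nonneg _)
        _ = _ := mul_one _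
    linarith
  · intro ζ hζ hM
    obtain ⟨ξ, W, h1, h2, h3, h4, h5, h6⟩ := hr2 ζ hζ hM
    refine ⟨ξ, W, ?_, h2, ⟨h3, h4, fun i hi => (h5 i hi).trans (min_le_left _ _)⟩, ?_, h6⟩
    · rw [← h1, ← mul_apply_eq_comp, F.q_mul, min_eq_right]
      exact (le_max_right _ _).trans (le_max_left _ _)
    · intro p hp
      have h7 := hC p hp W _ h3 h5
      refine h7.trans ?_
      have h8 : C * min ((1 / 2 : ℝ) ^ n) (1 / ((n + 1) * (C + 1))) ≤ 1 / (n + 1) := by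
        calc C * min ((1 / 2 : ℝ) ^ n) (1 / ((n + 1) * (C + 1))) ≤
            (C + 1) * (1 / ((n + 1) * (C + 1))) := by
              apply mul_le_mul (by linarith) (min_le_right _ _) hε.le (by linarith)
          _ = 1 / (n + 1) := by field_simp
      calc C * ‖p‖ * min ((1 / 2 : ℝ) ^ n) (1 / ((n + 1) * (C + 1))) =
          ‖p‖ * (C * min ((1 / 2 : ℝ) ^ n) (1 / ((n + 1) * (C + 1)))) := by ring
        _ ≤ ‖p‖ * (1 / (n + 1)) := mul_le_mul_of_nonneg_left h8 (norm_nonneg _)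
        _ = ‖p‖ / (n + 1) := by ring

theorem Frame.bicomm [CompleteSpace H] (F : Frame H) :
    ∃ ρ : ℕ → ℕ, (∀ n, n ≤ ρ n) ∧ ∀ s : H →L[ℂ] H,
    (∀ δ > 0, ∀ N, ∃ γ ≥ N, ∀ W ∈ F.WW γ, ‖(s * W - W * s) * F.q (ρ γ)‖ ≤ δ) →
    s ∈ closure (Algebra.adjoin ℂ (Set.range F.g) : Set (H →L[ℂ] H)) := by
  choose D r hD0 hDg hnr hrad hcov using F.data
  let ρ : ℕ → ℕ := fun n => max (r n)
    (Module.finrank ℂ (LinearMap.range (F.q (r n) : H →ₗ[ℂ] H))) + 1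
  have hρr : ∀ n, r n + 1 ≤ ρ n := fun n => Nat.add_le_add_right (le_max_left _ _) 1
  have hρf : ∀ n, Module.finrank ℂ (LinearMap.range (F.q (r n) : H →ₗ[ℂ] H)) + 1 ≤ ρ n :=
    fun n => Nat.add_le_add_right (le_max_right _ _) 1
  have hρn : ∀ n, n ≤ ρ n := fun n => (hnr n).trans ((Nat.le_succ _).trans (hρr n))
  refine ⟨ρ, hρn, fun s hs => ?_⟩
  have hsv := F.comm_v ρ hρn s hs
  rw [Metric.mem_closure_iff]
  intro ε hε
  set S := ‖s‖ with hS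
  have hS0 : 0 ≤ S := norm_nonneg _
  set δ := min 1 (ε / 8) with hδ
  have hδ0 : 0 < δ := lt_min one_pos (by positivity)
  have hδ1 : δ ≤ 1 := min_le_left _ _
  have hδε : δ ≤ ε / 8 := min_le_right _ _
  obtain ⟨N, hN⟩ := exists_nat_gt ((5 * S + 8) / (ε / 4))
  obtain ⟨n, hn, hW⟩ := hs δ hδ0 N
  have hn1 : (0 : ℝ) < (n : ℝ) + 1 := by positivity
  have hNn : (5 * S + 8) / ((n : ℝ) + 1) < ε / 4 := by
    rw [div_lt_iff₀ hn1]
    rw [div_lt_iff₀ (by positivity)] at hN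
    have h1 : (N : ℝ) ≤ n := by exact_mod_cast hn
    nlinarith [mul_le_mul_of_nonneg_right h1 (show 0 ≤ ε / 4 by positivity)]
  obtain ⟨p, hp, hps⟩ := F.approx_on_range n (D n) (r n) (ρ n) (hD0 n) (hDg n) (hnr n) (hρr n)
    (hρf n) s hsv δ hδ0 hW
  refine ⟨p, F.PP_le_adjoin n (D n) hp, ?_⟩
  rw [dist_eq_norm]
  have hpq : ‖p * F.q (r n)‖ ≤ S + 2 * δ := by
    have h1 : p * F.q (r n) = s * F.q (r n) - (s - p) * F.q (r n) := by
      rw [sub_mul]; abel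
    rw [h1]
    have h2 : ‖s * F.q (r n)‖ ≤ S := by
      calc ‖s * F.q (r n)‖ ≤ ‖s‖ * ‖F.q (r n)‖ := norm_mul_le _ _
        _ ≤ ‖s‖ * 1 := mul_le_mul_of_nonneg_left (F.q_opNorm_le _) (norm_nonneg _)
        _ = S := by rw [mul_one]
    exact (norm_sub_le _ _).trans (by linarith)
  have hpn : ‖p‖ ≤ 2 * S + 4 * δ := (hrad n p hp).trans (by linarith)
  set K : ℝ := 3 * δ + (5 * S + 8 * δ) / (n + 1) with hK
  have hK0 : 0 ≤ K := by positivity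
  have hfin : ∀ ζ : H, ‖ζ‖ ≤ 1 → (∃ M, F.q M ζ = ζ) → ‖(s - p) ζ‖ ≤ K := by
    intro ζ hζ hM
    obtain ⟨ξ, W, h1, h2, h3, h4, h5⟩ := hcov n ζ hζ hM
    have hWn : ‖W‖ ≤ 1 := h3.1
    have hρξ : F.q (ρ n) ξ = ξ := by
      rw [← h1, ← mul_apply_eq_comp, F.q_mul, min_eq_right]
      exact (Nat.le_succ _).trans (hρr n)
    have e : (s - p) ζ = s (ζ - W ξ) + ((s * W - W * s) * F.q (ρ n)) ξ +
        W (((s - p) * F.q (r n)) ξ) + (-((p * W - W * p) ξ)) + p (W ξ - ζ) := by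
      simp only [mul_apply_eq_comp, sub_apply, hρξ, h1, map_sub]
      abel
    have b1 : ‖s (ζ - W ξ)‖ ≤ S * (1 / (n + 1)) := by
      refine (s.le_opNorm _).trans ?_
      rw [norm_sub_rev]
      exact mul_le_mul_of_nonneg_left h5 (norm_nonneg _)
    have b2 : ‖((s * W - W * s) * F.q (ρ n)) ξ‖ ≤ δ := by
      refine (ContinuousLinearMap.le_opNorm _ _).trans ?_
      calc _ ≤ δ * 1 := mul_le_mul (hW W h3) h2 (norm_nonneg _) hδ0.le
        _ = δ := mul_one _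
    have b3 : ‖W (((s - p) * F.q (r n)) ξ)‖ ≤ 2 * δ := by
      refine (W.le_opNorm _).trans ?_
      calc ‖W‖ * ‖((s - p) * F.q (r n)) ξ‖ ≤ 1 * ‖((s - p) * F.q (r n)) ξ‖ :=
            mul_le_mul_of_nonneg_right hWn (norm_nonneg _)
        _ = ‖((s - p) * F.q (r n)) ξ‖ := one_mul _
        _ ≤ ‖(s - p) * F.q (r n)‖ * ‖ξ‖ := ContinuousLinearMap.le_opNorm _ _
        _ ≤ 2 * δ * 1 := mul_le_mul hps h2 (norm_nonneg _) (by positivity)
        _ = 2 * δ := mul_one _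
    have b4 : ‖-((p * W - W * p) ξ)‖ ≤ (2 * S + 4 * δ) * (1 / (n + 1)) := by
      rw [norm_neg]
      refine (ContinuousLinearMap.le_opNorm _ _).trans ?_
      calc ‖p * W - W * p‖ * ‖ξ‖ ≤ (‖p‖ / (n + 1)) * 1 :=
            mul_le_mul (h4 p hp) h2 (norm_nonneg _) (by positivity)
        _ = ‖p‖ * (1 / (n + 1)) := by ring
        _ ≤ (2 * S + 4 * δ) * (1 / (n + 1)) := mul_le_mul_of_nonneg_right hpn (by positivity)
    have b5 : ‖p (W ξ - ζ)‖ ≤ (2 * S + 4 * δ) * (1 / (n + 1)) := by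
      refine (p.le_opNorm _).trans ?_
      exact mul_le_mul hpn h5 (norm_nonneg _) (by positivity)
    rw [e]
    have t : ‖s (ζ - W ξ) + ((s * W - W * s) * F.q (ρ n)) ξ +
        W (((s - p) * F.q (r n)) ξ) + (-((p * W - W * p) ξ)) + p (W ξ - ζ)‖ ≤
        ‖s (ζ - W ξ)‖ + ‖((s * W - W * s) * F.q (ρ n)) ξ‖ +
        ‖W (((s - p) * F.q (r n)) ξ)‖ + ‖-((p * W - W * p) ξ)‖ + ‖p (W ξ - ζ)‖ := by
      refine (norm_add_le _ _).trans (add_le_add_left ?_ _)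
      refine (norm_add_le _ _).trans (add_le_add_left ?_ _)
      refine (norm_add_le _ _).trans (add_le_add_left ?_ _)
      exact norm_add_le _ _
    refine t.trans ?_
    have hKe : K = S * (1 / (n + 1)) + δ + 2 * δ + (2 * S + 4 * δ) * (1 / (n + 1)) +
        (2 * S + 4 * δ) * (1 / (n + 1)) := by
      rw [hK]; ring
    rw [hKe]
    linarith
  have hall : ∀ x : H, ‖(s - p) x‖ ≤ K * ‖x‖ := by
    intro x
    by_cases hx : x = 0
    · rw [hx, map_zero, norm_zero, mul_zero]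
    have hx0 : 0 < ‖x‖ := norm_pos_iff.2 hx
    have h1 : ∀ M, ‖(s - p) (F.q M x)‖ ≤ K * ‖x‖ := by
      intro M
      have h2 := hfin (((‖x‖⁻¹ : ℝ) : ℂ) • F.q M x) (by
        rw [norm_smul, Complex.norm_real, norm_inv, norm_norm]
        rw [inv_mul_le_iff₀ hx0, mul_one]
        exact F.q_norm_le M x) ⟨M, by
          rw [map_smul, ← mul_apply_eq_comp, F.q_mul, min_self]⟩
      rw [map_smul, norm_smul, Complex.norm_real, norm_inv, norm_norm,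
        inv_mul_le_iff₀ hx0] at h2
      linarith [mul_comm K ‖x‖]
    have h2 : Tendsto (fun M => ‖(s - p) (F.q M x)‖) atTop (𝓝 ‖(s - p) x‖) :=
      ((s - p).continuous.norm.tendsto x).comp (F.q_lim x)
    exact le_of_tendsto' h2 h1
  have hn := ContinuousLinearMap.opNorm_le_bound (s - p) hK0 hall
  refine lt_of_le_of_lt hn ?_
  have h9 : (5 * S + 8 * δ) / ((n : ℝ) + 1) ≤ (5 * S + 8) / ((n : ℝ) + 1) := by
    apply div_le_div_of_nonneg_right _ hn1.le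
    linarith
  rw [hK]
  linarith

end Pool.Agent.Helper509.FR
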