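import Mathlib

/-! Frames: a Hilbert space with a finite dimensional filtration, self-adjoint operators of
propagation one, and commuting isometries with orthogonal ranges. -/

namespace Pool.Agent.Helper509.FR

open Filter Topology

/-- A frame. -/
structure Frame (H : Type*) [NormedAddCommGroup H] [InnerProductSpace ℂ H] where
  q : ℕ → (H →L[ℂ] H)
  g : ℕ → (H →L[ℂ] H)
  v : ℕ → (H →L[ℂ] H)
  q_sa : ∀ n (x y : H), inner ℂ (q n x) y = inner ℂ x (q n y)
  q_mul : ∀ m n, q m * q n = q (min m n)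
  q_fin : ∀ n, FiniteDimensional ℂ (LinearMap.range (q n : H →ₗ[ℂ] H))
  q_lim : ∀ x, Tendsto (fun n => q n x) atTop (𝓝 x)
  g_sa : ∀ i (x y : H), inner ℂ (g i x) y = inner ℂ x (g i y)
  g_prop : ∀ i k, i ≤ k → q (k + 1) * (g i * q k) = g i * q k
  v_iso : ∀ i j (x y : H), inner ℂ (v i x) (v j y) = if i = j then inner ℂ x y else (0 : ℂ)
  v_prop : ∀ i k, i ≤ k → q (k + 1) * (v i * q k) = v i * q k
  v_comm : ∀ i j, v i * g j = g j * v i

variable {H : Type*} [NormedAddCommGroup H] [InnerProductSpace ℂ H]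

/-- finitely supported contractions which almost commute with the first `g i` -/
def Frame.WW (F : Frame H) (n : ℕ) : Set (H →L[ℂ] H) :=
  {W | ‖W‖ ≤ 1 ∧ (∃ M, F.q M * W * F.q M = W) ∧ ∀ i ≤ n, ‖F.g i * W - W * F.g i‖ ≤ (1 / 2) ^ n}

/-- polynomials of degree at most `k` in `g 0, ..., g n` -/
def Frame.PP (F : Frame H) (n : ℕ) : ℕ → Submodule ℂ (H →L[ℂ] H)
  | 0 => Submodule.span ℂ {1}
  | (k + 1) => F.PP n k ⊔ ⨆ i : Fin (n + 1), (F.PP n k).map (LinearMap.mulLeft ℂ (F.g i))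

end Pool.Agent.Helper509.FR
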