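import Pool.Agent.Helper509.FR.Poly

namespace Pool.Agent.Helper509.FR

open Filter Topology

variable {H : Type*} [NormedAddCommGroup H] [InnerProductSpace ℂ H]
/-! PROOF IN WORDS.
exists_radius: if not, for each r there is p_r in P with ‖p_r‖ > 2 ‖p_r * q r‖; normalise to
‖p_r‖ = 1 (p_r ≠ 0). P is finite dimensional, so the unit sphere of P is compact and a subsequence
p_(r_j) → p in P, ‖p‖ = 1. Choose a unit vector x (or x with ‖x‖ ≤ 1) with ‖p x‖ > 3/4; as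
q r x → x, there is an r with y = q r x, ‖y‖ ≤ 1 (orthogonal projection, norm ≤ 1),
‖p y‖ > 5/8. For r_j ≥ r: q (r_j) y = y, so ‖p_(r_j) * q (r_j)‖ ≥ ‖p_(r_j) y‖ →  ‖p y‖ > 5/8
which contradicts ‖p_(r_j) * q(r_j)‖ < 1/2. (Finite net of the unit sphere works as well.)
PP_commutator: first, for each fixed p in PP n k there is a constant C_p ≥ 0 with
‖p W - W p‖ ≤ C_p μ for all W, μ as in the statement (induction on k / closure under sums, scalar
multiples and left multiplication by g i: (g p) W - W (g p) = g (p W - W p) + (g W - W g) p; for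
p = 1 it is 0; note that μ ≥ 0 because it bounds a norm (i = 0)). Then take a basis b_1..b_m of the
finite dimensional space PP n k; the coordinates are continuous: |c_j(p)| ≤ K ‖p‖. So
C = sum_j K C_(b_j) works.
-/

theorem fr4_compact {E : Type*} [NormedAddCommGroup E] [NormedSpace ℂ E] (P : Submodule ℂ E)
    (hP : FiniteDimensional ℂ P) : IsCompact {p : E | p ∈ P ∧ ‖p‖ = 1} := by
  have hprop : ProperSpace P := FiniteDimensional.proper ℂ P
  have hcomp : IsCompact (Metric.sphere (0 : P) 1) := isCompact_sphere _ _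
  have h := hcomp.image continuous_subtype_val
  convert h using 1
  ext p
  constructor
  · rintro ⟨hp, h1⟩
    exact ⟨⟨p, hp⟩, by simpa using h1, rfl⟩
  · rintro ⟨q, hq, rfl⟩
    exact ⟨q.2, by simpa using hq⟩

theorem fr4_coord {E : Type*} [NormedAddCommGroup E] [NormedSpace ℂ E] (P : Submodule ℂ E)
    (hP : FiniteDimensional ℂ P) : ∃ (m : ℕ) (b : Fin m → E) (K : ℝ), 0 ≤ K ∧ (∀ i, b i ∈ P) ∧
      ∀ p ∈ P, ∃ c : Fin m → ℂ, (∀ i, ‖c i‖ ≤ K * ‖p‖) ∧ p = ∑ i, c i • b i := by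
  let b := Module.finBasis ℂ P
  let cc : ∀ i, P →L[ℂ] ℂ := fun i => LinearMap.toContinuousLinearMap (b.coord i)
  refine ⟨_, fun i => (b i : E), ∑ i, ‖cc i‖, Finset.sum_nonneg fun i _ => norm_nonneg (cc i),
    fun i => (b i).2, fun p hp => ⟨fun i => cc i ⟨p, hp⟩, fun i => ?_, ?_⟩⟩
  · refine ((cc i).le_opNorm ⟨p, hp⟩).trans ?_
    have h1 : ‖cc i‖ ≤ ∑ i, ‖cc i‖ :=
      Finset.single_le_sum (f := fun i => ‖cc i‖) (fun j _ => norm_nonneg (cc j)) (Finset.mem_univ i)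
    have h2 : ‖(⟨p, hp⟩ : P)‖ = ‖p‖ := rfl
    rw [h2]
    gcongr
  · have h1 := b.sum_repr ⟨p, hp⟩
    have h2 : p = ((∑ i, (b.repr ⟨p, hp⟩) i • b i : P) : E) := by rw [h1]
    refine h2.trans ?_
    simp only [AddSubmonoidClass.coe_finset_sum, Submodule.coe_smul]
    rfl

theorem Frame.fr4_q_norm_le (F : Frame H) (n : ℕ) (x : H) : ‖F.q n x‖ ≤ ‖x‖ := by
  have h1 : inner ℂ (F.q n x) (F.q n x) = inner ℂ x (F.q n x) := by
    rw [F.q_sa n x (F.q n x), ← ContinuousLinearMap.mul_apply, F.q_mul n n, min_self]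
  have h2 : ‖F.q n x‖ ^ 2 ≤ ‖x‖ * ‖F.q n x‖ := by
    have h3 : ‖(inner ℂ (F.q n x) (F.q n x) : ℂ)‖ = ‖F.q n x‖ ^ 2 := by
      rw [inner_self_eq_norm_sq_to_K]
      simp
    rw [← h3, h1]
    exact norm_inner_le_norm _ _
  by_contra h
  push Not at h
  have h4 : 0 < ‖F.q n x‖ := (norm_nonneg x).trans_lt h
  nlinarith

theorem Frame.fr4_q_mono (F : Frame H) (r s : ℕ) (hrs : r ≤ s) (p : H →L[ℂ] H) :
    ‖p * F.q r‖ ≤ ‖p * F.q s‖ := by
  have h1 : F.q r = F.q s * F.q r := by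
    rw [F.q_mul, min_eq_right hrs]
  rw [h1, ← mul_assoc]
  refine ContinuousLinearMap.opNorm_le_bound _ (norm_nonneg _) fun x => ?_
  calc ‖(p * F.q s * F.q r) x‖ = ‖(p * F.q s) (F.q r x)‖ := rfl
    _ ≤ ‖p * F.q s‖ * ‖F.q r x‖ := ContinuousLinearMap.le_opNorm _ _
    _ ≤ ‖p * F.q s‖ * ‖x‖ := by
      gcongr
      exact F.fr4_q_norm_le r x

theorem Frame.exists_radius (F : Frame H) (P : Submodule ℂ (H →L[ℂ] H))
    (hP : FiniteDimensional ℂ P) : ∃ r, ∀ p ∈ P, ‖p‖ ≤ 2 * ‖p * F.q r‖ := by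
  have hcomp : IsCompact {p : H →L[ℂ] H | p ∈ P ∧ ‖p‖ = 1} := fr4_compact P hP
  obtain ⟨r, hr⟩ := hcomp.elim_directed_cover
    (fun r : ℕ => {p : H →L[ℂ] H | (1 / 2 : ℝ) < ‖p * F.q r‖}) (fun r => by
      refine isOpen_lt continuous_const ?_
      have : Continuous fun p : H →L[ℂ] H => p * F.q r :=
        continuous_id.mul continuous_const
      exact this.norm) (by
      rintro p ⟨hpP, hp⟩
      rw [Set.mem_iUnion]
      by_contra hcon
      simp only [not_exists, Set.mem_ofPred_eq, not_lt] at hcon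
      have hbd : ‖p‖ ≤ 1 / 2 := by
        refine ContinuousLinearMap.opNorm_le_bound _ (by norm_num) fun x => ?_
        have hlim : Tendsto (fun r => ‖p (F.q r x)‖) atTop (𝓝 ‖p x‖) :=
          ((p.continuous.tendsto _).comp (F.q_lim x)).norm
        refine le_of_tendsto' hlim fun r => ?_
        calc ‖p (F.q r x)‖ = ‖(p * F.q r) x‖ := rfl
          _ ≤ ‖p * F.q r‖ * ‖x‖ := ContinuousLinearMap.le_opNorm _ _
          _ ≤ 1 / 2 * ‖x‖ := by
            gcongr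
            exact hcon r
      linarith) (by
      intro r s
      refine ⟨max r s, ?_, ?_⟩
      · intro p hp
        exact lt_of_lt_of_le (show (1 / 2 : ℝ) < ‖p * F.q r‖ from hp) (F.fr4_q_mono _ _ (le_max_left _ _) p)
      · intro p hp
        exact lt_of_lt_of_le (show (1 / 2 : ℝ) < ‖p * F.q s‖ from hp) (F.fr4_q_mono _ _ (le_max_right _ _) p))
  refine ⟨r, fun p hp => ?_⟩
  by_cases hp0 : p = 0
  · simp [hp0]
  have hpos : 0 < ‖p‖ := norm_pos_iff.2 hp0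
  have hmem : (((‖p‖⁻¹ : ℝ) : ℂ) • p) ∈ {p : H →L[ℂ] H | p ∈ P ∧ ‖p‖ = 1} := by
    refine ⟨P.smul_mem _ hp, ?_⟩
    rw [norm_smul]
    simp [hpos.ne']
  have h1 : (1 / 2 : ℝ) < ‖(((‖p‖⁻¹ : ℝ) : ℂ) • p) * F.q r‖ := hr hmem
  rw [smul_mul_assoc, norm_smul] at h1
  have h2 : ‖(((‖p‖⁻¹ : ℝ)) : ℂ)‖ = ‖p‖⁻¹ := by simp
  rw [h2] at h1
  have h3 : ‖p‖ * (1 / 2) < ‖p‖ * (‖p‖⁻¹ * ‖p * F.q r‖) := by gcongr
  rw [← mul_assoc, mul_inv_cancel₀ hpos.ne', one_mul] at h3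
  linarith

/-- operators whose commutators with `W` are controlled -/
def Frame.FR4Good (F : Frame H) (n : ℕ) : Submodule ℂ (H →L[ℂ] H) where
  carrier := {p | ∃ C : ℝ, 0 ≤ C ∧ ∀ (W : H →L[ℂ] H) (μ : ℝ), ‖W‖ ≤ 1 →
    (∀ i ≤ n, ‖F.g i * W - W * F.g i‖ ≤ μ) → ‖p * W - W * p‖ ≤ C * μ}
  zero_mem' := ⟨0, le_refl _, fun W μ _ _ => by simp⟩
  add_mem' := by
    rintro p p' ⟨C, hC, h⟩ ⟨C', hC', h'⟩
    refine ⟨C + C', by positivity, fun W μ hW hμ => ?_⟩
    calc ‖(p + p') * W - W * (p + p')‖ = ‖(p * W - W * p) + (p' * W - W * p')‖ := by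
          congr 1
          noncomm_ring
      _ ≤ ‖p * W - W * p‖ + ‖p' * W - W * p'‖ := norm_add_le _ _
      _ ≤ C * μ + C' * μ := add_le_add (h W μ hW hμ) (h' W μ hW hμ)
      _ = (C + C') * μ := by ring
  smul_mem' := by
    rintro c p ⟨C, hC, h⟩
    refine ⟨‖c‖ * C, by positivity, fun W μ hW hμ => ?_⟩
    rw [smul_mul_assoc, mul_smul_comm, ← smul_sub, norm_smul, mul_assoc]
    gcongr
    exact h W μ hW hμ

theorem Frame.PP_le_FR4Good (F : Frame H) (n k : ℕ) : F.PP n k ≤ F.FR4Good n := by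
  induction k with
  | zero =>
    rw [Frame.PP, Submodule.span_le]
    rintro p rfl
    exact ⟨0, le_refl _, fun W μ _ _ => by simp⟩
  | succ k ih =>
    rw [Frame.PP]
    refine sup_le ih (iSup_le fun i => ?_)
    rintro p ⟨p', hp', rfl⟩
    obtain ⟨C, hC, h⟩ := ih hp'
    refine ⟨‖F.g i‖ * C + ‖p'‖, by positivity, fun W μ hW hμ => ?_⟩
    rw [LinearMap.mulLeft_apply]
    have hi : (i : ℕ) ≤ n := Nat.lt_succ_iff.1 i.2
    calc ‖F.g i * p' * W - W * (F.g i * p')‖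
        = ‖F.g i * (p' * W - W * p') + (F.g i * W - W * F.g i) * p'‖ := by
          congr 1
          noncomm_ring
      _ ≤ ‖F.g i * (p' * W - W * p')‖ + ‖(F.g i * W - W * F.g i) * p'‖ := norm_add_le _ _
      _ ≤ ‖F.g i‖ * ‖p' * W - W * p'‖ + ‖F.g i * W - W * F.g i‖ * ‖p'‖ :=
          add_le_add (norm_mul_le _ _) (norm_mul_le _ _)
      _ ≤ ‖F.g i‖ * (C * μ) + μ * ‖p'‖ := by
          gcongr
          · exact h W μ hW hμ
          · exact hμ i hi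
      _ = (‖F.g i‖ * C + ‖p'‖) * μ := by ring

theorem Frame.PP_commutator (F : Frame H) (n k : ℕ) : ∃ C : ℝ, 0 ≤ C ∧ ∀ p ∈ F.PP n k,
    ∀ (W : H →L[ℂ] H) (μ : ℝ), ‖W‖ ≤ 1 → (∀ i ≤ n, ‖F.g i * W - W * F.g i‖ ≤ μ) →
      ‖p * W - W * p‖ ≤ C * ‖p‖ * μ := by
  obtain ⟨m, b, K, hK, hb, hc⟩ := fr4_coord (F.PP n k) (F.PP_fin n k)
  choose C hC0 hC using fun i => F.PP_le_FR4Good n k (hb i)
  refine ⟨∑ i, K * C i, Finset.sum_nonneg fun i _ => mul_nonneg hK (hC0 i), ?_⟩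
  intro p hp W μ hW hμ
  have hμ0 : 0 ≤ μ := (norm_nonneg _).trans (hμ 0 (Nat.zero_le _))
  obtain ⟨c, hcb, hrep⟩ := hc p hp
  have hcomm : p * W - W * p = ∑ i, c i • (b i * W - W * b i) := by
    conv_lhs => rw [hrep]
    rw [Finset.sum_mul, Finset.mul_sum, ← Finset.sum_sub_distrib]
    refine Finset.sum_congr rfl fun i _ => ?_
    rw [smul_sub, smul_mul_assoc, mul_smul_comm]
  rw [hcomm, Finset.sum_mul, Finset.sum_mul]
  refine norm_sum_le_of_le _ fun i _ => ?_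
  rw [norm_smul]
  calc ‖c i‖ * ‖b i * W - W * b i‖
      ≤ (K * ‖p‖) * (C i * μ) :=
        mul_le_mul (hcb i) (hC i W μ hW hμ) (norm_nonneg _) (by positivity)
    _ = K * C i * ‖p‖ * μ := by ring

end Pool.Agent.Helper509.FR
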