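import Pool.Agent.Helper509.FR.Basic

namespace Pool.Agent.Helper509.FR

open Filter Topology

variable {H : Type*} [NormedAddCommGroup H] [InnerProductSpace ℂ H]

/-! PROOF IN WORDS.
p k are orthogonal projections with p k ≤ p (k+1). Each has norm ≤ 1, so the average has norm ≤ 1.
Put a_k = (1 - p k) * g * p k. Then g * p k - p k * g = a_k - adjoint a_k. By hprop, (for k < D)
g * p k = p (k+1) * g * p k, so a_k = (p (k+1) - p k) * g * p k. Moreover for k ≥ 1, k < D:
a_k * p (k-1) = (1 - p k) * g * p (k-1) = (1 - p k) * p k * g * p(k-1) = 0 (hprop for k-1), so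
a_k = e_(k+1) * g * e_k with e_k = p k - p (k-1) (and e_0 = p 0), which are mutually orthogonal
projections with sum_{k<=D} ‖e_k x‖^2 = ‖p D x‖^2 ≤ ‖x‖^2. Hence (Pythagoras)
‖sum_{k<D} a_k x‖^2 = sum ‖e_(k+1) g e_k x‖^2 ≤ ‖g‖^2 sum ‖e_k x‖^2 ≤ ‖g‖^2 ‖x‖^2, so
‖sum_{k<D} a_k‖ ≤ ‖g‖, the same for the adjoint of the sum, and the commutator is
(1/D) (sum a_k - adjoint (sum a_k)), of norm ≤ 2 ‖g‖ / D. (An alternative without adjoints of the
sum: treat sum_k e_k g e_(k+1) directly in the same way.)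
-/

/-- the increments of `p` -/
noncomputable def incr (p : ℕ → (H →L[ℂ] H)) : ℕ → (H →L[ℂ] H)
  | 0 => p 0
  | (k + 1) => p (k + 1) - p k

lemma incr_sum (p : ℕ → (H →L[ℂ] H)) (N : ℕ) :
    ∑ k ∈ Finset.range (N + 1), incr p k = p N := by
  induction N with
  | zero => simp [incr]
  | succ n ih => rw [Finset.sum_range_succ, ih]; simp [incr]

lemma incr_sa {p : ℕ → (H →L[ℂ] H)} (hsa : ∀ k (x y : H), inner ℂ (p k x) y = inner ℂ x (p k y))
    (k : ℕ) (x y : H) : inner ℂ (incr p k x) y = inner ℂ x (incr p k y) := by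
  cases k with
  | zero => exact hsa 0 x y
  | succ n =>
    simp only [incr, ContinuousLinearMap.sub_apply, inner_sub_left, inner_sub_right, hsa]

lemma incr_mul {p : ℕ → (H →L[ℂ] H)} (hmul : ∀ k l, p k * p l = p (min k l)) {j k : ℕ}
    (h : j < k) : incr p j * incr p k = 0 := by
  obtain ⟨k, rfl⟩ : ∃ k', k = k' + 1 := ⟨k - 1, by omega⟩
  cases j with
  | zero =>
    simp only [incr, mul_sub, hmul]
    simp
  | succ j =>
    simp only [incr, mul_sub, sub_mul, hmul]
    rw [min_eq_left (by omega : j + 1 ≤ k + 1), min_eq_left (by omega : j ≤ k + 1),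
      min_eq_left (by omega : j + 1 ≤ k), min_eq_left (by omega : j ≤ k)]
    simp

lemma incr_idem {p : ℕ → (H →L[ℂ] H)} (hmul : ∀ k l, p k * p l = p (min k l)) (k : ℕ) :
    incr p k * incr p k = incr p k := by
  cases k with
  | zero => simp [incr, hmul]
  | succ j =>
    simp only [incr, mul_sub, sub_mul, hmul]
    rw [min_self, min_self, min_eq_left (by omega : j ≤ j + 1), min_eq_right (by omega : j ≤ j + 1)]
    simp

lemma incr_orth {p : ℕ → (H →L[ℂ] H)}
    (hsa : ∀ k (x y : H), inner ℂ (p k x) y = inner ℂ x (p k y))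
    (hmul : ∀ k l, p k * p l = p (min k l)) {j k : ℕ} (h : j ≠ k) (x y : H) :
    inner ℂ (incr p j x) (incr p k y) = (0 : ℂ) := by
  rcases lt_or_gt_of_ne h with h | h
  · rw [incr_sa hsa]
    have := congrArg (fun T : H →L[ℂ] H => T y) (incr_mul hmul h)
    simp only [ContinuousLinearMap.mul_apply, ContinuousLinearMap.zero_apply] at this
    rw [this, inner_zero_right]
  · rw [← incr_sa hsa]
    have := congrArg (fun T : H →L[ℂ] H => T x) (incr_mul hmul h)
    simp only [ContinuousLinearMap.mul_apply, ContinuousLinearMap.zero_apply] at this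
    rw [this, inner_zero_left]

/-- a self-adjoint idempotent contracts -/
lemma sq_eq {T : H →L[ℂ] H} (hT : ∀ x y : H, inner ℂ (T x) y = inner ℂ x (T y)) (h2 : T * T = T)
    (x : H) : ‖T x‖ ^ 2 = RCLike.re (inner ℂ (T x) x : ℂ) := by
  have h3 : T (T x) = T x := congrArg (fun S : H →L[ℂ] H => S x) h2
  rw [← inner_self_eq_norm_sq (𝕜 := ℂ), hT (T x) x |>.symm, h3]

lemma contr {T : H →L[ℂ] H} (hT : ∀ x y : H, inner ℂ (T x) y = inner ℂ x (T y)) (h2 : T * T = T)
    (x : H) : ‖T x‖ ≤ ‖x‖ := by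
  have h := sq_eq hT h2 x
  have h4 : RCLike.re (inner ℂ (T x) x : ℂ) ≤ ‖T x‖ * ‖x‖ := re_inner_le_norm _ _
  by_contra hlt
  push Not at hlt
  have : 0 < ‖T x‖ := (norm_nonneg x).trans_lt hlt
  nlinarith

lemma bessel {p : ℕ → (H →L[ℂ] H)}
    (hsa : ∀ k (x y : H), inner ℂ (p k x) y = inner ℂ x (p k y))
    (hmul : ∀ k l, p k * p l = p (min k l)) (N : ℕ) (x : H) :
    ∑ k ∈ Finset.range (N + 1), ‖incr p k x‖ ^ 2 ≤ ‖x‖ ^ 2 := by
  have h1 : ∀ k, ‖incr p k x‖ ^ 2 = RCLike.re (inner ℂ (incr p k x) x : ℂ) := fun k =>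
    sq_eq (incr_sa hsa k) (incr_idem hmul k) x
  have h2 : ∑ k ∈ Finset.range (N + 1), ‖incr p k x‖ ^ 2 =
      RCLike.re (inner ℂ (p N x) x : ℂ) := by
    rw [← incr_sum p N, ContinuousLinearMap.sum_apply, sum_inner, map_sum]
    exact Finset.sum_congr rfl fun k _ => h1 k
  have hi : p N * p N = p N := by rw [hmul, min_self]
  rw [h2, ← sq_eq (hsa N) hi x]
  exact pow_le_pow_left₀ (norm_nonneg _) (contr (hsa N) hi x) 2

lemma main_bound (D : ℕ) (u w : ℕ → (H →L[ℂ] H)) (g : H →L[ℂ] H)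
    (ho : ∀ j k, j ≠ k → ∀ x y : H, inner ℂ (u j x) (u k y) = (0 : ℂ))
    (hc : ∀ k (x : H), ‖u k x‖ ≤ ‖x‖)
    (hb : ∀ x : H, ∑ k ∈ Finset.range D, ‖w k x‖ ^ 2 ≤ ‖x‖ ^ 2) :
    ‖∑ k ∈ Finset.range D, u k * (g * w k)‖ ≤ ‖g‖ := by
  refine ContinuousLinearMap.opNorm_le_bound _ (norm_nonneg _) fun x => ?_
  have key : ‖(∑ k ∈ Finset.range D, u k * (g * w k)) x‖ ^ 2 =
      ∑ k ∈ Finset.range D, ‖u k (g (w k x))‖ ^ 2 := by
    rw [ContinuousLinearMap.sum_apply]
    simp only [ContinuousLinearMap.mul_apply]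
    rw [← inner_self_eq_norm_sq (𝕜 := ℂ), sum_inner, map_sum]
    refine Finset.sum_congr rfl fun k hk => ?_
    rw [inner_sum, Finset.sum_eq_single k]
    · exact inner_self_eq_norm_sq (𝕜 := ℂ) _
    · intro l _ hl
      exact ho k l (Ne.symm hl) _ _
    · intro h
      exact absurd hk h
  have h2 : ‖(∑ k ∈ Finset.range D, u k * (g * w k)) x‖ ^ 2 ≤ (‖g‖ * ‖x‖) ^ 2 := by
    rw [key, mul_pow]
    calc ∑ k ∈ Finset.range D, ‖u k (g (w k x))‖ ^ 2
        ≤ ∑ k ∈ Finset.range D, ‖g‖ ^ 2 * ‖w k x‖ ^ 2 := by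
          refine Finset.sum_le_sum fun k _ => ?_
          rw [← mul_pow]
          exact pow_le_pow_left₀ (norm_nonneg _) ((hc k _).trans (g.le_opNorm _)) 2
      _ = ‖g‖ ^ 2 * ∑ k ∈ Finset.range D, ‖w k x‖ ^ 2 := by rw [Finset.mul_sum]
      _ ≤ ‖g‖ ^ 2 * ‖x‖ ^ 2 := mul_le_mul_of_nonneg_left (hb x) (by positivity)
  exact le_of_sq_le_sq h2 (by positivity)

theorem slow_avg [CompleteSpace H] (D : ℕ) (hD : 0 < D) (p : ℕ → (H →L[ℂ] H)) (g : H →L[ℂ] H)
    (hsa : ∀ k (x y : H), inner ℂ (p k x) y = inner ℂ x (p k y))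
    (hmul : ∀ k l, p k * p l = p (min k l))
    (hg : ∀ x y : H, inner ℂ (g x) y = inner ℂ x (g y))
    (hprop : ∀ k < D, p (k + 1) * (g * p k) = g * p k) :
    ‖(D : ℂ)⁻¹ • ∑ k ∈ Finset.range D, p k‖ ≤ 1 ∧
    ‖g * ((D : ℂ)⁻¹ • ∑ k ∈ Finset.range D, p k) -
      ((D : ℂ)⁻¹ • ∑ k ∈ Finset.range D, p k) * g‖ ≤ 2 * ‖g‖ / D := by
  have hD' : (0:ℝ) < D := by exact_mod_cast hD
  have hi : ∀ k, p k * p k = p k := fun k => by rw [hmul, min_self]
  have hn : ∀ k, ‖p k‖ ≤ 1 := fun k =>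
    ContinuousLinearMap.opNorm_le_bound _ zero_le_one fun x => by
      rw [one_mul]; exact contr (hsa k) (hi k) x
  have nD : ‖(D : ℂ)⁻¹‖ = (D : ℝ)⁻¹ := by simp
  constructor
  · rw [norm_smul, nD]
    have : ‖∑ k ∈ Finset.range D, p k‖ ≤ D := by
      calc ‖∑ k ∈ Finset.range D, p k‖ ≤ ∑ k ∈ Finset.range D, ‖p k‖ := norm_sum_le _ _
        _ ≤ ∑ _k ∈ Finset.range D, (1:ℝ) := Finset.sum_le_sum fun k _ => hn k
        _ = D := by simp
    calc (D : ℝ)⁻¹ * ‖∑ k ∈ Finset.range D, p k‖ ≤ (D : ℝ)⁻¹ * D :=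
          mul_le_mul_of_nonneg_left this (by positivity)
      _ = 1 := inv_mul_cancel₀ hD'.ne'
  · -- the two halves
    have hA : ∀ k < D, g * p k - p k * (g * p k) = incr p (k + 1) * (g * incr p k) := by
      intro k hk
      have e1 := hprop k hk
      cases k with
      | zero =>
        simp only [incr, sub_mul]
        rw [e1]
      | succ k =>
        have e2 := hprop k (by omega)
        have e3 : p (k + 1 + 1) * (g * p k) = g * p k := by
          rw [← e2, ← mul_assoc, hmul, min_eq_right (by omega), e2]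
        simp only [incr, mul_sub, sub_mul]
        rw [e1, e3, e2]
        abel
    have hB : ∀ k < D, p k * g - p k * (g * p k) = incr p k * (g * incr p (k + 1)) := by
      intro k hk
      ext1 x
      refine ext_inner_right ℂ fun y => ?_
      have h1 := congrArg (fun T : H →L[ℂ] H => (inner ℂ x (T y) : ℂ)) (hA k hk)
      simp only [ContinuousLinearMap.mul_apply, ContinuousLinearMap.sub_apply,
        inner_sub_right] at h1
      simp only [ContinuousLinearMap.mul_apply, ContinuousLinearMap.sub_apply, inner_sub_left]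
      rw [hsa, hg, hsa, hg, hsa, incr_sa hsa, hg, incr_sa hsa]
      exact h1
    have b1 : ‖∑ k ∈ Finset.range D, (g * p k - p k * (g * p k))‖ ≤ ‖g‖ := by
      rw [Finset.sum_congr rfl fun k hk => hA k (Finset.mem_range.1 hk)]
      refine main_bound D (fun k => incr p (k + 1)) (incr p) g ?_ ?_ ?_
      · intro j k h x y
        exact incr_orth hsa hmul (by omega) x y
      · intro k x
        exact contr (incr_sa hsa _) (incr_idem hmul _) x
      · intro x
        refine (Finset.sum_le_sum_of_subset_of_nonneg ?_ ?_).trans (bessel hsa hmul D x)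
        · exact Finset.range_mono (by omega)
        · intros; positivity
    have b2 : ‖∑ k ∈ Finset.range D, (p k * g - p k * (g * p k))‖ ≤ ‖g‖ := by
      rw [Finset.sum_congr rfl fun k hk => hB k (Finset.mem_range.1 hk)]
      refine main_bound D (incr p) (fun k => incr p (k + 1)) g ?_ ?_ ?_
      · intro j k h x y
        exact incr_orth hsa hmul h x y
      · intro k x
        exact contr (incr_sa hsa _) (incr_idem hmul _) x
      · intro x
        refine le_trans ?_ (bessel hsa hmul D x)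
        rw [Finset.sum_range_succ' (fun k => ‖incr p k x‖ ^ 2)]
        have : (0:ℝ) ≤ ‖incr p 0 x‖ ^ 2 := by positivity
        linarith
    have hcom : g * ((D : ℂ)⁻¹ • ∑ k ∈ Finset.range D, p k) -
        ((D : ℂ)⁻¹ • ∑ k ∈ Finset.range D, p k) * g =
        (D : ℂ)⁻¹ • (∑ k ∈ Finset.range D, (g * p k - p k * (g * p k)) -
          ∑ k ∈ Finset.range D, (p k * g - p k * (g * p k))) := by
      rw [mul_smul_comm, smul_mul_assoc, ← smul_sub, Finset.mul_sum, Finset.sum_mul,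
        ← Finset.sum_sub_distrib, ← Finset.sum_sub_distrib]
      congr 1
      refine Finset.sum_congr rfl fun k _ => ?_
      abel
    rw [hcom, norm_smul, nD]
    calc (D : ℝ)⁻¹ * ‖∑ k ∈ Finset.range D, (g * p k - p k * (g * p k)) -
          ∑ k ∈ Finset.range D, (p k * g - p k * (g * p k))‖
        ≤ (D : ℝ)⁻¹ * (‖g‖ + ‖g‖) := by
          refine mul_le_mul_of_nonneg_left ?_ (by positivity)
          exact (norm_sub_le _ _).trans (add_le_add b1 b2)
      _ = 2 * ‖g‖ / D := by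
          field_simp
          ring

end Pool.Agent.Helper509.FR
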